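import Mathlib

/-!
# Algebraic independence in the ring of arithmetic functions
-/

set_option autoImplicit false

open Finset MvPolynomial

namespace Pool.Agent.N534.DI

variable {J : Type} [Fintype J]

/-- the derivation `n ↦ v_p(n) f(n)` -/
noncomputable def Dp (p : ℕ) (f : ArithmeticFunction ℂ) : ArithmeticFunction ℂ :=
  ⟨fun n => (n.factorization p : ℂ) * f n, by simp⟩

theorem Dp_apply (p : ℕ) (f : ArithmeticFunction ℂ) (n : ℕ) : Dp p f n = (n.factorization p : ℂ) * f n := rfl

theorem Dp_add (p : ℕ) (f g : ArithmeticFunction ℂ) : Dp p (f + g) = Dp p f + Dp p g := by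
  ext n
  simp only [Dp_apply, ArithmeticFunction.add_apply, mul_add]

theorem Dp_mul (p : ℕ) (f g : ArithmeticFunction ℂ) : Dp p (f * g) = Dp p f * g + f * Dp p g := by
  ext n
  simp only [Dp_apply, ArithmeticFunction.add_apply, ArithmeticFunction.mul_apply]
  rw [Finset.mul_sum, ← Finset.sum_add_distrib]
  refine Finset.sum_congr rfl fun x hx => ?_
  obtain ⟨h1, h2⟩ := Nat.mem_divisorsAntidiagonal.1 hx
  have h3 : x.1 ≠ 0 := fun h => h2 (by rw [← h1, h, zero_mul])
  have h4 : x.2 ≠ 0 := fun h => h2 (by rw [← h1, h, mul_zero])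
  rw [← h1, Nat.factorization_mul h3 h4, Finsupp.add_apply]
  push_cast
  ring

theorem Dp_alg (p : ℕ) (c : ℂ) : Dp p (algebraMap ℂ (ArithmeticFunction ℂ) c) = 0 := by
  ext n
  rw [Dp_apply, Algebra.algebraMap_eq_smul_one, ArithmeticFunction.smul_map, ArithmeticFunction.one_apply]
  by_cases h : n = 1
  · rw [h]
    simp
  · rw [if_neg h]
    simp

theorem Dp_aeval (p : ℕ) (F : J → ArithmeticFunction ℂ) (P : MvPolynomial J ℂ) :
    Dp p (aeval F P) = ∑ j, aeval F (pderiv j P) * Dp p (F j) := by
  classical
  induction P using MvPolynomial.induction_on with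
  | C a =>
    rw [aeval_C, Dp_alg]
    simp
  | add P Q hP hQ =>
    rw [map_add, Dp_add, hP, hQ, ← Finset.sum_add_distrib]
    refine Finset.sum_congr rfl fun j _ => ?_
    rw [map_add, map_add, add_mul]
  | mul_X P i hP =>
    rw [map_mul, aeval_X, Dp_mul, hP, Finset.sum_mul]
    have h1 : ∀ j, aeval F (pderiv j (P * X i)) * Dp p (F j) =
        aeval F (pderiv j P) * Dp p (F j) * F i + (if j = i then aeval F P * Dp p (F i) else 0) := by
      intro j
      rw [pderiv_mul, map_add, map_mul, map_mul, aeval_X, pderiv_X]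
      by_cases h : j = i
      · subst h
        rw [Pi.single_eq_same, if_pos rfl, map_one]
        ring
      · rw [Pi.single_eq_of_ne (fun h' => h h'.symm), if_neg h, map_zero]
        ring
    rw [Finset.sum_congr rfl fun j _ => h1 j, Finset.sum_add_distrib, Finset.sum_ite_eq' Finset.univ i,
      if_pos (Finset.mem_univ _)]

omit [Fintype J] in
theorem totalDegree_pderiv (j : J) (P : MvPolynomial J ℂ) (n : ℕ) (h : P.totalDegree ≤ n + 1) :
    (pderiv j P).totalDegree ≤ n := by
  classical
  refine Finset.sup_le fun m hm => ?_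
  rw [mem_support_iff, coeff_pderiv] at hm
  have h1 : m + Finsupp.single j 1 ∈ P.support := by
    rw [mem_support_iff]
    exact left_ne_zero_of_mul hm
  have h2 := (le_totalDegree h1).trans h
  rw [Finsupp.sum_add_index' (fun _ => rfl) (fun _ _ _ => rfl), Finsupp.sum_single_index rfl] at h2
  omega

theorem eq_C (P : MvPolynomial J ℂ) (h : ∀ j, pderiv j P = 0) : P = C (coeff 0 P) := by
  classical
  ext m
  rw [coeff_C]
  by_cases hm : 0 = m
  · rw [if_pos hm, hm]
  · rw [if_neg hm]
    obtain ⟨j, hj⟩ : ∃ j, m j ≠ 0 := by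
      by_contra hcon
      push Not at hcon
      exact hm (Finsupp.ext fun j => (hcon j).symm)
    have h1 := congrArg (coeff (m - Finsupp.single j 1)) (h j)
    rw [coeff_pderiv, coeff_zero, tsub_add_cancel_of_le (by
      rw [Finsupp.single_le_iff]
      omega)] at h1
    refine (mul_eq_zero.1 h1).resolve_right ?_
    norm_cast

/-- the linear step -/
theorem step (m : J → ℕ) (hm : ∀ j, 0 < m j) (F : J → ArithmeticFunction ℂ)
    (h1 : ∀ j q, F j q ≠ 0 → ∀ p, p.Prime → m j ∣ q.factorization p)
    (h2 : ∀ (M N : ℕ) (w : J → ℂ), (∀ p, p.Prime → N < p → ∑ j, (if m j = M then w j * F j (p ^ M) else 0) = 0) →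
      ∀ j, m j = M → w j = 0)
    (u : J → ArithmeticFunction ℂ) (hu : ∀ p, p.Prime → ∑ j, u j * Dp p (F j) = 0) : ∀ j, u j = 0 := by
  classical
  have key : ∀ M, ∀ j, m j = M → u j = 0 := by
    intro M
    induction M using Nat.strong_induction_on with
    | _ M ih =>
      by_contra hcon
      push Not at hcon
      obtain ⟨j0, hj0, hne⟩ := hcon
      have hM : 0 < M := hj0 ▸ hm j0
      have hex : ∃ n, ∃ j, m j = M ∧ u j n ≠ 0 := by
        by_contra hcon
        push Not at hcon
        exact hne (ArithmeticFunction.ext fun n => hcon n j0 hj0)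
      set N := Nat.find hex with hN
      have hmin : ∀ n, ∀ j, m j = M → u j n ≠ 0 → N ≤ n := fun n j hj hn => Nat.find_min' hex ⟨j, hj, hn⟩
      obtain ⟨j1, hj1, hj1N⟩ := Nat.find_spec hex
      rw [← hN] at hj1N
      have hN0 : N ≠ 0 := by
        intro h
        rw [h] at hj1N
        exact hj1N (by simp)
      have h3 : ∀ p, p.Prime → N < p → ∑ j, (if m j = M then (u j N * M) * F j (p ^ M) else 0) = 0 := by
        intro p hp hpN
        have hpM : p ^ M ≠ 0 := pow_ne_zero _ hp.ne_zero
        have h4 := congrArg (fun f : ArithmeticFunction ℂ => f (p ^ M * N)) (hu p hp)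
        have h5 : (∑ j, u j * Dp p (F j) : ArithmeticFunction ℂ) (p ^ M * N) =
            ∑ j, (u j * Dp p (F j)) (p ^ M * N) := by
          induction (Finset.univ : Finset J) using Finset.induction_on with
          | empty => simp
          | insert a s ha ih' => rw [Finset.sum_insert ha, Finset.sum_insert ha, ArithmeticFunction.add_apply, ih']
        change (∑ j, u j * Dp p (F j) : ArithmeticFunction ℂ) (p ^ M * N) = (0 : ArithmeticFunction ℂ) (p ^ M * N) at h4
        rw [h5, ArithmeticFunction.zero_apply] at h4
        refine Eq.trans (Finset.sum_congr rfl fun j _ => ?_) h4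
        rw [ArithmeticFunction.mul_apply]
        have hvN : N.factorization p = 0 := Nat.factorization_eq_zero_of_lt hpN
        have hfac : ∀ x ∈ (p ^ M * N).divisorsAntidiagonal, u j x.1 * Dp p (F j) x.2 ≠ 0 → m j = M ∧ x = (N, p ^ M) := by
          intro x hx hxne
          obtain ⟨hx1, hx2⟩ := Nat.mem_divisorsAntidiagonal.1 hx
          have hx3 : x.1 ≠ 0 := fun h => hx2 (by rw [← hx1, h, zero_mul])
          have hx4 : x.2 ≠ 0 := fun h => hx2 (by rw [← hx1, h, mul_zero])
          have a1 := left_ne_zero_of_mul hxne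
          have a2 := right_ne_zero_of_mul hxne
          rw [Dp_apply] at a2
          have a3 := left_ne_zero_of_mul a2
          have a4 := right_ne_zero_of_mul a2
          have a5 : x.2.factorization p ≠ 0 := by exact_mod_cast a3
          have a6 := Nat.le_of_dvd (Nat.pos_of_ne_zero a5) (h1 j _ a4 p hp)
          have a7 : M ≤ m j := by
            by_contra hlt
            push Not at hlt
            rw [ih _ hlt j rfl] at a1
            exact a1 (by simp)
          have a8 : x.1.factorization p + x.2.factorization p = M := by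
            have := congrArg (fun n : ℕ => n.factorization p) hx1
            rw [Nat.factorization_mul hx3 hx4, Nat.factorization_mul hpM hN0, Finsupp.add_apply, Finsupp.add_apply,
              hvN, hp.factorization_pow, Finsupp.single_eq_same] at this
            omega
          have a9 : x.1.factorization p = 0 := by omega
          have a10 : m j = M := by omega
          have a11 : ¬ p ∣ x.1 := by
            intro hd
            have := (hp.dvd_iff_one_le_factorization hx3).1 hd
            omega
          have a12 : x.1 ∣ N := by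
            have hc : Nat.Coprime x.1 (p ^ M) := (Nat.Coprime.pow_right M ((hp.coprime_iff_not_dvd.2 a11).symm))
            exact hc.dvd_of_dvd_mul_left (Dvd.intro _ hx1)
          have a13 : x.1 = N := le_antisymm (Nat.le_of_dvd (Nat.pos_of_ne_zero hN0) a12) (hmin _ j a10 a1)
          refine ⟨a10, Prod.ext a13 ?_⟩
          rw [a13, mul_comm (p ^ M)] at hx1
          exact Nat.eq_of_mul_eq_mul_left (Nat.pos_of_ne_zero hN0) hx1
        have hmem : (N, p ^ M) ∈ (p ^ M * N).divisorsAntidiagonal :=
          Nat.mem_divisorsAntidiagonal.2 ⟨mul_comm _ _, mul_ne_zero hpM hN0⟩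
        by_cases hj : m j = M
        · rw [if_pos hj, Finset.sum_eq_single_of_mem (N, p ^ M) hmem (fun x hx hxne => by
            by_contra hne'
            exact hxne (hfac x hx hne').2), Dp_apply, hp.factorization_pow, Finsupp.single_eq_same]
          ring
        · rw [if_neg hj]
          refine (Finset.sum_eq_zero fun x hx => ?_).symm
          by_contra hne'
          exact hj (hfac x hx hne').1
      have h6 := h2 M N (fun j => u j N * M) h3 j1 hj1
      have h7 : (M : ℂ) ≠ 0 := by exact_mod_cast hM.ne'
      exact hj1N ((mul_eq_zero.1 h6).resolve_right h7)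
  exact fun j => key _ j rfl

/-- **algebraic independence of arithmetic functions** -/
theorem inj (m : J → ℕ) (hm : ∀ j, 0 < m j) (F : J → ArithmeticFunction ℂ)
    (h1 : ∀ j q, F j q ≠ 0 → ∀ p, p.Prime → m j ∣ q.factorization p)
    (h2 : ∀ (M N : ℕ) (w : J → ℂ), (∀ p, p.Prime → N < p → ∑ j, (if m j = M then w j * F j (p ^ M) else 0) = 0) →
      ∀ j, m j = M → w j = 0) (P : MvPolynomial J ℂ) (hP : aeval F P = 0) : P = 0 := by
  have hC : ∀ c : ℂ, aeval F (C c : MvPolynomial J ℂ) = 0 → c = 0 := by
    intro c hc
    rw [aeval_C, Algebra.algebraMap_eq_smul_one] at hc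
    have := congrArg (fun f : ArithmeticFunction ℂ => f 1) hc
    simpa using this
  have key : ∀ n, ∀ P : MvPolynomial J ℂ, P.totalDegree ≤ n → aeval F P = 0 → P = 0 := by
    intro n
    induction n with
    | zero =>
      intro P hd h
      rw [totalDegree_eq_zero_iff_eq_C.1 (Nat.le_zero.1 hd)] at h ⊢
      rw [hC _ h, C_0]
    | succ n ih =>
      intro P hd h
      have h3 : ∀ j, pderiv j P = 0 := by
        intro j
        refine ih _ (totalDegree_pderiv j P n hd) ?_
        refine step m hm F h1 h2 (fun j => aeval F (pderiv j P)) (fun p _ => ?_) j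
        rw [← Dp_aeval, h]
        ext n
        simp [Dp_apply]
      have h4 := eq_C P h3
      rw [h4] at h ⊢
      rw [hC _ h, C_0]
  exact key _ P le_rfl hP

end Pool.Agent.N534.DI
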