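import Mathlib
import Pool.Agent.N534.DI.Ring

/-!
# Algebraic independence in the ring of arithmetic functions, with the functions `p^(-s)`
-/

set_option autoImplicit false

open Finset MvPolynomial

namespace Pool.Agent.N534.DI

variable {J : Type} [Fintype J]

/-- the linear step, for large primes -/
theorem step' (N0 : ℕ) (m : J → ℕ) (hm : ∀ j, 0 < m j) (F : J → ArithmeticFunction ℂ)
    (h1 : ∀ j q, F j q ≠ 0 → ∀ p, p.Prime → m j ∣ q.factorization p)
    (h2 : ∀ (M N : ℕ) (w : J → ℂ), (∀ p, p.Prime → N < p → ∑ j, (if m j = M then w j * F j (p ^ M) else 0) = 0) →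
      ∀ j, m j = M → w j = 0)
    (u : J → ArithmeticFunction ℂ) (hu : ∀ p, p.Prime → N0 < p → ∑ j, u j * Dp p (F j) = 0) : ∀ j, u j = 0 := by
  classical
  have key : ∀ M, ∀ j, m j = M → u j = 0 := by
    intro M
    induction M using Nat.strong_induction_on with
    | _ M ih =>
      by_contra hcon
      push Not at hcon
      obtain ⟨j0, hj0, hne⟩ := hcon
      have hM : 0 < M := hj0 ▸ hm j0
      have hex : ∃ n, ∃ j, m j = M ∧ u j n ≠ 0 := by
        by_contra hcon
        push Not at hcon
        exact hne (ArithmeticFunction.ext fun n => hcon n j0 hj0)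
      set N := Nat.find hex with hN
      have hmin : ∀ n, ∀ j, m j = M → u j n ≠ 0 → N ≤ n := fun n j hj hn => Nat.find_min' hex ⟨j, hj, hn⟩
      obtain ⟨j1, hj1, hj1N⟩ := Nat.find_spec hex
      rw [← hN] at hj1N
      have hN0 : N ≠ 0 := by
        intro h
        rw [h] at hj1N
        exact hj1N (by simp)
      have h3 : ∀ p, p.Prime → max N N0 < p → ∑ j, (if m j = M then (u j N * M) * F j (p ^ M) else 0) = 0 := by
        intro p hp hpN'
        have hpN : N < p := lt_of_le_of_lt (le_max_left _ _) hpN'
        have hpM : p ^ M ≠ 0 := pow_ne_zero _ hp.ne_zero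
        have h4 := congrArg (fun f : ArithmeticFunction ℂ => f (p ^ M * N)) (hu p hp (lt_of_le_of_lt (le_max_right _ _) hpN'))
        have h5 : (∑ j, u j * Dp p (F j) : ArithmeticFunction ℂ) (p ^ M * N) =
            ∑ j, (u j * Dp p (F j)) (p ^ M * N) := by
          induction (Finset.univ : Finset J) using Finset.induction_on with
          | empty => simp
          | insert a s ha ih' => rw [Finset.sum_insert ha, Finset.sum_insert ha, ArithmeticFunction.add_apply, ih']
        change (∑ j, u j * Dp p (F j) : ArithmeticFunction ℂ) (p ^ M * N) = (0 : ArithmeticFunction ℂ) (p ^ M * N) at h4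
        rw [h5, ArithmeticFunction.zero_apply] at h4
        refine Eq.trans (Finset.sum_congr rfl fun j _ => ?_) h4
        rw [ArithmeticFunction.mul_apply]
        have hvN : N.factorization p = 0 := Nat.factorization_eq_zero_of_lt hpN
        have hfac : ∀ x ∈ (p ^ M * N).divisorsAntidiagonal, u j x.1 * Dp p (F j) x.2 ≠ 0 → m j = M ∧ x = (N, p ^ M) := by
          intro x hx hxne
          obtain ⟨hx1, hx2⟩ := Nat.mem_divisorsAntidiagonal.1 hx
          have hx3 : x.1 ≠ 0 := fun h => hx2 (by rw [← hx1, h, zero_mul])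
          have hx4 : x.2 ≠ 0 := fun h => hx2 (by rw [← hx1, h, mul_zero])
          have a1 := left_ne_zero_of_mul hxne
          have a2 := right_ne_zero_of_mul hxne
          rw [Dp_apply] at a2
          have a3 := left_ne_zero_of_mul a2
          have a4 := right_ne_zero_of_mul a2
          have a5 : x.2.factorization p ≠ 0 := by exact_mod_cast a3
          have a6 := Nat.le_of_dvd (Nat.pos_of_ne_zero a5) (h1 j _ a4 p hp)
          have a7 : M ≤ m j := by
            by_contra hlt
            push Not at hlt
            rw [ih _ hlt j rfl] at a1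
            exact a1 (by simp)
          have a8 : x.1.factorization p + x.2.factorization p = M := by
            have := congrArg (fun n : ℕ => n.factorization p) hx1
            rw [Nat.factorization_mul hx3 hx4, Nat.factorization_mul hpM hN0, Finsupp.add_apply, Finsupp.add_apply,
              hvN, hp.factorization_pow, Finsupp.single_eq_same] at this
            omega
          have a9 : x.1.factorization p = 0 := by omega
          have a10 : m j = M := by omega
          have a11 : ¬ p ∣ x.1 := by
            intro hd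
            have := (hp.dvd_iff_one_le_factorization hx3).1 hd
            omega
          have a12 : x.1 ∣ N := by
            have hc : Nat.Coprime x.1 (p ^ M) := (Nat.Coprime.pow_right M ((hp.coprime_iff_not_dvd.2 a11).symm))
            exact hc.dvd_of_dvd_mul_left (Dvd.intro _ hx1)
          have a13 : x.1 = N := le_antisymm (Nat.le_of_dvd (Nat.pos_of_ne_zero hN0) a12) (hmin _ j a10 a1)
          refine ⟨a10, Prod.ext a13 ?_⟩
          rw [a13, mul_comm (p ^ M)] at hx1
          exact Nat.eq_of_mul_eq_mul_left (Nat.pos_of_ne_zero hN0) hx1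
        have hmem : (N, p ^ M) ∈ (p ^ M * N).divisorsAntidiagonal :=
          Nat.mem_divisorsAntidiagonal.2 ⟨mul_comm _ _, mul_ne_zero hpM hN0⟩
        by_cases hj : m j = M
        · rw [if_pos hj, Finset.sum_eq_single_of_mem (N, p ^ M) hmem (fun x hx hxne => by
            by_contra hne'
            exact hxne (hfac x hx hne').2), Dp_apply, hp.factorization_pow, Finsupp.single_eq_same]
          ring
        · rw [if_neg hj]
          refine (Finset.sum_eq_zero fun x hx => ?_).symm
          by_contra hne'
          exact hj (hfac x hx hne').1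
      have h6 := h2 M (max N N0) (fun j => u j N * M) h3 j1 hj1
      have h7 : (M : ℂ) ≠ 0 := by exact_mod_cast hM.ne'
      exact hj1N ((mul_eq_zero.1 h6).resolve_right h7)
  exact fun j => key _ j rfl


/-- the coefficients of `q^(-s)` -/
noncomputable def dl (q : ℕ) : ArithmeticFunction ℂ := ⟨fun n => if n = q ∧ q ≠ 0 then 1 else 0, if_neg fun h => h.2 h.1.symm⟩

theorem dl_apply {q : ℕ} (hq : q ≠ 0) (n : ℕ) : dl q n = if n = q then 1 else 0 := by
  change (if n = q ∧ q ≠ 0 then (1 : ℂ) else 0) = _
  by_cases h : n = q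
  · rw [if_pos ⟨h, hq⟩, if_pos h]
  · rw [if_neg (fun h' => h h'.1), if_neg h]

theorem Dp_dl {p q : ℕ} (hq : q.Prime) : Dp p (dl q) = if p = q then dl q else 0 := by
  ext n
  rw [Dp_apply, dl_apply hq.ne_zero]
  by_cases h : n = q
  · subst h
    rw [if_pos rfl, mul_one, hq.factorization]
    by_cases hpq : p = n
    · subst hpq
      rw [if_pos rfl, Finsupp.single_eq_same, dl_apply hq.ne_zero, if_pos rfl, Nat.cast_one]
    · rw [if_neg hpq, Finsupp.single_eq_of_ne hpq, Nat.cast_zero]
      rfl
  · rw [if_neg h, mul_zero]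
    by_cases hpq : p = q
    · rw [if_pos hpq, dl_apply hq.ne_zero, if_neg h]
    · rw [if_neg hpq]
      rfl

theorem mul_dl {q : ℕ} (hq : q ≠ 0) (u : ArithmeticFunction ℂ) (h : u * dl q = 0) : u = 0 := by
  ext n
  rcases eq_or_ne n 0 with rfl | hn
  · simp
  have h1 := congrArg (fun f : ArithmeticFunction ℂ => f (n * q)) h
  change (u * dl q) (n * q) = 0 at h1
  rw [ArithmeticFunction.mul_apply, Finset.sum_eq_single_of_mem (n, q)
    (Nat.mem_divisorsAntidiagonal.2 ⟨rfl, mul_ne_zero hn hq⟩) (fun x hx hne => ?_)] at h1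
  · rw [dl_apply hq, if_pos rfl, mul_one] at h1
    rw [h1]
    rfl
  · rw [dl_apply hq]
    by_cases h2 : x.2 = q
    · exfalso
      apply hne
      have h3 := (Nat.mem_divisorsAntidiagonal.1 hx).1
      rw [h2] at h3
      exact Prod.ext (Nat.eq_of_mul_eq_mul_right (Nat.pos_of_ne_zero hq) h3) h2
    · rw [if_neg h2, mul_zero]

/-- all the functions -/
noncomputable def FB (B : Finset ℕ) (F : J → ArithmeticFunction ℂ) : {q // q ∈ B} ⊕ J → ArithmeticFunction ℂ :=
  Sum.elim (fun q => dl q) F

/-- **algebraic independence of arithmetic functions** -/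
theorem inj' (B : Finset ℕ) (hB : ∀ q ∈ B, q.Prime) (m : J → ℕ) (hm : ∀ j, 0 < m j) (F : J → ArithmeticFunction ℂ)
    (h1 : ∀ j q, F j q ≠ 0 → ∀ p, p.Prime → m j ∣ q.factorization p)
    (h2 : ∀ (M N : ℕ) (w : J → ℂ), (∀ p, p.Prime → N < p → ∑ j, (if m j = M then w j * F j (p ^ M) else 0) = 0) →
      ∀ j, m j = M → w j = 0) (P : MvPolynomial ({q // q ∈ B} ⊕ J) ℂ) (hP : aeval (FB B F) P = 0) : P = 0 := by
  classical
  have hC : ∀ c : ℂ, aeval (FB B F) (C c : MvPolynomial ({q // q ∈ B} ⊕ J) ℂ) = 0 → c = 0 := by
    intro c hc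
    rw [aeval_C, Algebra.algebraMap_eq_smul_one] at hc
    have := congrArg (fun f : ArithmeticFunction ℂ => f 1) hc
    simpa using this
  have key : ∀ n, ∀ P : MvPolynomial ({q // q ∈ B} ⊕ J) ℂ, P.totalDegree ≤ n → aeval (FB B F) P = 0 → P = 0 := by
    intro n
    induction n with
    | zero =>
      intro P hd h
      rw [totalDegree_eq_zero_iff_eq_C.1 (Nat.le_zero.1 hd)] at h ⊢
      rw [hC _ h, C_0]
    | succ n ih =>
      intro P hd h
      have hrel : ∀ p, p.Prime → ∑ q : {q // q ∈ B}, aeval (FB B F) (pderiv (Sum.inl q) P) * Dp p (dl q) +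
          ∑ j, aeval (FB B F) (pderiv (Sum.inr j) P) * Dp p (F j) = 0 := by
        intro p _
        have e := Dp_aeval p (FB B F) P
        rw [h, Fintype.sum_sum_type] at e
        have e0 : Dp p (0 : ArithmeticFunction ℂ) = 0 := by
          ext n
          simp [Dp_apply]
        rw [e0] at e
        exact e.symm
      have hJ : ∀ j, aeval (FB B F) (pderiv (Sum.inr j) P) = 0 := by
        refine step' (B.sup id) m hm F h1 h2 (fun j => aeval (FB B F) (pderiv (Sum.inr j) P)) (fun p hp hpB => ?_)
        have e := hrel p hp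
        rw [Finset.sum_eq_zero (fun q _ => ?_), zero_add] at e
        · exact e
        · have hne : p ≠ (q : ℕ) := by
            rintro rfl
            have := Finset.le_sup (f := id) q.2
            simp only [id] at this
            omega
          rw [Dp_dl (hB _ q.2), if_neg hne, mul_zero]
      have hQ : ∀ q : {q // q ∈ B}, aeval (FB B F) (pderiv (Sum.inl q) P) = 0 := by
        intro q
        have e := hrel q (hB _ q.2)
        rw [Finset.sum_eq_zero (s := (Finset.univ : Finset J)) (fun j _ => by rw [hJ j, zero_mul]), add_zero,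
          Finset.sum_eq_single_of_mem q (Finset.mem_univ _) (fun r _ hr => by
            rw [Dp_dl (hB _ r.2), if_neg (fun h' => hr (Subtype.ext h'.symm)), mul_zero]),
          Dp_dl (hB _ q.2), if_pos rfl] at e
        exact mul_dl (hB _ q.2).ne_zero _ e
      have h3 : ∀ o, pderiv o P = 0 := by
        rintro (q | j)
        · exact ih _ (totalDegree_pderiv _ P n hd) (hQ q)
        · exact ih _ (totalDegree_pderiv _ P n hd) (hJ j)
      have h4 := eq_C P h3
      rw [h4] at h ⊢
      rw [hC _ h, C_0]
  exact key _ P le_rfl hP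

end Pool.Agent.N534.DI
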