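import Mathlib
import Pool.Agent.N534.DI.Ring

/-!
# Dirichlet series with polynomial coefficients
-/

set_option autoImplicit false

open Finset MvPolynomial Filter Topology

namespace Pool.Agent.N534.DI

theorem decay (n : ℕ) (k K : ℕ) :
    Tendsto (fun x : ℝ => ((n : ℂ) + 1) ^ (x : ℂ) / (((n + 1 : ℕ) : ℂ) + 1) ^ (x : ℂ) * ((x : ℂ) ^ k * ((x : ℂ) ^ K)⁻¹))
      atTop (𝓝 0) := by
  rw [tendsto_zero_iff_norm_tendsto_zero]
  set b : ℝ := Real.log ((n : ℝ) + 2) - Real.log ((n : ℝ) + 1) with hb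
  have hn1 : (0 : ℝ) < (n : ℝ) + 1 := by positivity
  have hn2 : (0 : ℝ) < (n : ℝ) + 2 := by positivity
  have hb0 : 0 < b := by
    have := Real.log_lt_log hn1 (by linarith : (n : ℝ) + 1 < (n : ℝ) + 2)
    linarith
  refine (tendsto_rpow_mul_exp_neg_mul_atTop_nhds_zero ((k : ℝ) - K) b hb0).congr' ?_
  filter_upwards [eventually_gt_atTop 0] with x hx
  have e1 : ((n : ℂ) + 1) = (((n : ℝ) + 1 : ℝ) : ℂ) := by push_cast; ring
  have e2 : (((n + 1 : ℕ) : ℂ) + 1) = (((n : ℝ) + 2 : ℝ) : ℂ) := by push_cast; ring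
  rw [norm_mul, norm_div, norm_mul, norm_inv, norm_pow, norm_pow, e1, e2, Complex.norm_cpow_eq_rpow_re_of_pos hn1,
    Complex.norm_cpow_eq_rpow_re_of_pos hn2, Complex.ofReal_re, Complex.norm_real, Real.norm_eq_abs, abs_of_pos hx,
    Real.rpow_sub hx, Real.rpow_natCast, Real.rpow_natCast, Real.rpow_def_of_pos hn1, Real.rpow_def_of_pos hn2,
    ← Real.exp_sub, hb]
  rw [div_eq_mul_inv, mul_comm]
  congr 2
  ring

theorem sep (X0 : ℝ) (D : ℕ) (c : ℕ → ArithmeticFunction ℂ) (hs : ∀ k, LSeries.abscissaOfAbsConv (fun n => c k n) < ⊤)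
    (h : ∀ x : ℝ, X0 < x → ∑ k ∈ range (D + 1), LSeries (fun n => c k n) x * (x : ℂ) ^ k = 0) :
    ∀ k ≤ D, c k = 0 := by
  classical
  by_contra hcon
  push Not at hcon
  obtain ⟨k0, hk0, hne⟩ := hcon
  have hex : ∃ n, ∃ k ≤ D, c k n ≠ 0 := by
    by_contra hcon
    push Not at hcon
    exact hne (ArithmeticFunction.ext fun n => hcon n k0 hk0)
  obtain ⟨k1, hk1, hk1N⟩ := Nat.find_spec hex
  have hmin' : ∀ m < Nat.find hex, ∀ k ≤ D, c k m = 0 := by
    intro m hm k hk
    by_contra hne'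
    exact Nat.find_min hex hm ⟨k, hk, hne'⟩
  generalize Nat.find hex = N at hk1N hmin'
  obtain ⟨n, rfl⟩ : ∃ n, N = n + 1 := by
    refine ⟨N - 1, (Nat.succ_pred_eq_of_ne_zero ?_).symm⟩
    rintro rfl
    exact hk1N (by simp)
  have hmin : ∀ k ≤ D, ∀ m ≤ n, c k m = 0 := fun k hk m hm => hmin' m (by omega) k hk
  set K := Nat.findGreatest (fun k => c k (n + 1) ≠ 0) D with hK
  have hKD : K ≤ D := Nat.findGreatest_le D
  have hKne : c K (n + 1) ≠ 0 := Nat.findGreatest_spec (P := fun k => c k (n + 1) ≠ 0) hk1 hk1N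
  have hKgt : ∀ k, K < k → k ≤ D → c k (n + 1) = 0 := by
    intro k hk hkD
    by_contra hne'
    exact Nat.findGreatest_is_greatest (P := fun k => c k (n + 1) ≠ 0) hk hkD hne'
  have lim : ∀ k ∈ range (D + 1), Tendsto (fun x : ℝ => (((n : ℂ) + 1) ^ (x : ℂ) * LSeries (fun n => c k n) x) *
      ((x : ℂ) ^ k * ((x : ℂ) ^ K)⁻¹)) atTop (𝓝 (if k = K then c K (n + 1) else 0)) := by
    intro k hk
    have hkD : k ≤ D := Nat.lt_succ_iff.1 (Finset.mem_range.1 hk)
    have h1 := LSeries.tendsto_cpow_mul_atTop (hmin k hkD) (hs k)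
    rcases lt_trichotomy k K with hlt | heq | hgt
    · rw [if_neg hlt.ne]
      have h2 : Tendsto (fun x : ℝ => (x : ℂ) ^ k * ((x : ℂ) ^ K)⁻¹) atTop (𝓝 0) := by
        have h3 : Tendsto (fun x : ℝ => ((x : ℂ)⁻¹) ^ (K - k)) atTop (𝓝 ((0 : ℂ) ^ (K - k))) := by
          refine Tendsto.pow ?_ _
          have h4 : Tendsto (fun x : ℝ => ((x⁻¹ : ℝ) : ℂ)) atTop (𝓝 ((0 : ℝ) : ℂ)) :=
            (Complex.continuous_ofReal.tendsto 0).comp tendsto_inv_atTop_zero
          simpa using h4
        rw [zero_pow (by omega)] at h3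
        refine h3.congr' ?_
        filter_upwards [eventually_gt_atTop 0] with x hx
        have hx0 : (x : ℂ) ≠ 0 := by exact_mod_cast hx.ne'
        have h5 : (x : ℂ) ^ K = (x : ℂ) ^ (K - k) * (x : ℂ) ^ k := by
          rw [← pow_add]
          congr 1
          omega
        rw [h5, inv_pow, mul_inv]
        field_simp
      have h6 := h1.mul h2
      rwa [mul_zero] at h6
    · subst heq
      rw [if_pos rfl]
      have h6 := h1.mul_const (1 : ℂ)
      rw [mul_one] at h6
      refine h6.congr' ?_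
      filter_upwards [eventually_gt_atTop 0] with x hx
      have hx0 : (x : ℂ) ≠ 0 := by exact_mod_cast hx.ne'
      rw [mul_inv_cancel₀ (pow_ne_zero _ hx0)]
    · rw [if_neg hgt.ne']
      have h2 : ∀ m ≤ n + 1, (fun n => c k n) m = 0 := by
        intro m hm
        rcases Nat.lt_or_ge m (n + 1) with hlt | hge
        · exact hmin k hkD m (by omega)
        · have : m = n + 1 := by omega
          subst this
          exact hKgt k hgt hkD
      have h3 := LSeries.tendsto_cpow_mul_atTop h2 (hs k)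
      have h4 := h3.mul (decay n k K)
      rw [mul_zero] at h4
      refine h4.congr fun x => ?_
      have h5 : (((n + 1 : ℕ) : ℂ) + 1) ^ (x : ℂ) ≠ 0 := by
        intro h0
        have h6 := (Complex.cpow_eq_zero_iff _ _).1 h0
        have h7 : ((n + 1 : ℕ) : ℂ) + 1 ≠ 0 := by
          norm_cast
        exact h7 h6.1
      field_simp
  have hsum := tendsto_finsetSum _ lim
  rw [Finset.sum_ite_eq' (range (D + 1)) K, if_pos (Finset.mem_range.2 (by omega))] at hsum
  have h0 : (fun x : ℝ => ∑ k ∈ range (D + 1), (((n : ℂ) + 1) ^ (x : ℂ) * LSeries (fun n => c k n) x) *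
      ((x : ℂ) ^ k * ((x : ℂ) ^ K)⁻¹)) =ᶠ[atTop] fun _ => 0 := by
    filter_upwards [eventually_gt_atTop X0] with x hx
    have h1 := congrArg (fun t => ((n : ℂ) + 1) ^ (x : ℂ) * t * ((x : ℂ) ^ K)⁻¹) (h x hx)
    simp only [mul_zero, zero_mul] at h1
    rw [← h1, Finset.mul_sum, Finset.sum_mul]
    refine Finset.sum_congr rfl fun k _ => ?_
    ring
  exact hKne (tendsto_nhds_unique (hsum.congr' h0) tendsto_const_nhds)

variable {J : Type} [Fintype J]

omit [Fintype J] in
theorem hasSum_aeval (F : J → ArithmeticFunction ℂ) {s : ℂ} (hs : ∀ j, LSeriesSummable (fun n => F j n) s)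
    (R : MvPolynomial J ℂ) :
    LSeriesHasSum (fun n => aeval F R n) s (eval (fun j => LSeries (fun n => F j n) s) R) := by
  induction R using MvPolynomial.induction_on with
  | C a =>
    rw [eval_C, aeval_C]
    have h1 : ∀ n, algebraMap ℂ (ArithmeticFunction ℂ) a n = if n = 1 then a else 0 := by
      intro n
      rw [Algebra.algebraMap_eq_smul_one, ArithmeticFunction.smul_map, ArithmeticFunction.one_apply]
      by_cases h : n = 1
      · simp [h]
      · simp [h]
    simp only [h1]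
    have h2 : HasSum (LSeries.term (fun n => if n = 1 then a else 0) s) (LSeries.term (fun n => if n = 1 then a else 0) s 1) := by
      refine hasSum_single 1 fun n hn => ?_
      rcases eq_or_ne n 0 with rfl | h0
      · simp
      · rw [LSeries.term_of_ne_zero h0, if_neg hn, zero_div]
    rw [LSeries.term_of_ne_zero one_ne_zero, if_pos rfl, Nat.cast_one, Complex.one_cpow, div_one] at h2
    exact h2
  | add P Q hP hQ =>
    rw [map_add, map_add]
    exact hP.add hQ
  | mul_X P i hP =>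
    rw [map_mul, map_mul, aeval_X, eval_X]
    exact ArithmeticFunction.LSeriesHasSum_mul hP (hs i).LSeriesHasSum

omit [Fintype J] in
/-- **algebraic independence over `ℂ(x)`** -/
theorem aindepR (X0 : ℝ) (F : J → ArithmeticFunction ℂ) (hinj : ∀ P : MvPolynomial J ℂ, aeval F P = 0 → P = 0)
    (hs : ∀ j, ∀ x : ℝ, X0 < x → LSeriesSummable (fun n => F j n) x) (P : MvPolynomial (Option J) ℂ)
    (hP : ∀ x : ℝ, X0 < x → eval (fun o : Option J => o.elim (x : ℂ) fun j => LSeries (fun n => F j n) x) P = 0) : P = 0 := by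
  set Q := optionEquivLeft ℂ J P with hQ
  have h1 : ∀ k ≤ Q.natDegree, aeval F (Q.coeff k) = 0 := by
    refine sep X0 Q.natDegree (fun k => aeval F (Q.coeff k)) (fun k => ?_) (fun x hx => ?_)
    · have h2 := (hasSum_aeval F (s := ((X0 + 1 : ℝ) : ℂ)) (fun j => hs j (X0 + 1) (by linarith))
        (Q.coeff k)).LSeriesSummable.abscissaOfAbsConv_le
      refine lt_of_le_of_lt h2 ?_
      exact EReal.coe_lt_top _
    · have h2 := hP x hx
      rw [optionEquivLeft_elim_eval, ← hQ, Polynomial.eval_map, Polynomial.eval₂_eq_sum_range] at h2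
      rw [← h2]
      refine Finset.sum_congr rfl fun k _ => ?_
      rw [(hasSum_aeval F (fun j => hs j x hx) (Q.coeff k)).LSeries_eq]
  have h3 : Q = 0 := by
    ext1 k
    rw [Polynomial.coeff_zero]
    rcases le_or_gt k Q.natDegree with h | h
    · exact hinj _ (h1 k h)
    · exact Polynomial.coeff_eq_zero_of_natDegree_lt h
  exact (map_eq_zero_iff _ (optionEquivLeft ℂ J).injective).1 h3

end Pool.Agent.N534.DI
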