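import Mathlib
import Pool.Agent.N534.DI.Sep

/-!
# The functions `ζ^(k)(m z + a)` are algebraically independent over `ℂ(z)`
-/

set_option autoImplicit false

open Finset MvPolynomial Filter Topology

namespace Pool.Agent.N534.DI

/-- exponential polynomials vanishing on an unbounded set -/
theorem expind {I : Type} [Fintype I] (a : I → ℝ) (k : I → ℕ) (hinj : ∀ i j, a i = a j → k i = k j → i = j)
    (S : Set ℝ) (hS : ∀ B : ℝ, ∃ y ∈ S, B ≤ y) (w : I → ℂ)
    (h : ∀ y ∈ S, ∑ i, w i * ((y ^ k i * Real.exp (-a i * y) : ℝ) : ℂ) = 0) : w = 0 := by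
  classical
  by_contra hne
  obtain ⟨i1, hi1⟩ : ∃ i, w i ≠ 0 := by
    by_contra hcon
    push Not at hcon
    exact hne (funext hcon)
  obtain ⟨i0, hi0, hmax⟩ := Finset.exists_max_image (univ.filter fun i => w i ≠ 0) (fun i => toLex (-a i, k i))
    ⟨i1, by simp [hi1]⟩
  have hw0 : w i0 ≠ 0 := (Finset.mem_filter.1 hi0).2
  have lim : ∀ i ∈ (univ : Finset I), Tendsto (fun y : ℝ => w i * ((y ^ k i * Real.exp (-a i * y) *
      (y ^ k i0 * Real.exp (-a i0 * y))⁻¹ : ℝ) : ℂ)) atTop (𝓝 (if i = i0 then w i0 else 0)) := by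
    intro i _
    by_cases hi : i = i0
    · subst hi
      rw [if_pos rfl]
      refine (tendsto_const_nhds (x := w i)).congr' ?_
      filter_upwards [eventually_gt_atTop 0] with y hy
      rw [mul_inv_cancel₀ (by positivity), Complex.ofReal_one, mul_one]
    · rw [if_neg hi]
      by_cases hw : w i = 0
      · rw [hw]
        simp
      · have h1 := hmax i (by simp [hw])
        have h2 : Tendsto (fun y : ℝ => y ^ k i * Real.exp (-a i * y) * (y ^ k i0 * Real.exp (-a i0 * y))⁻¹) atTop (𝓝 0) := by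
          rw [Prod.Lex.toLex_le_toLex] at h1
          rcases h1 with h1 | ⟨h1, h2⟩
          · simp only at h1
            refine (tendsto_rpow_mul_exp_neg_mul_atTop_nhds_zero ((k i : ℝ) - k i0) (a i - a i0) (by linarith)).congr' ?_
            filter_upwards [eventually_gt_atTop 0] with y hy
            rw [Real.rpow_sub hy, Real.rpow_natCast, Real.rpow_natCast, mul_inv, ← Real.exp_neg]
            have h3 : Real.exp (-(a i - a i0) * y) = Real.exp (-a i * y) * Real.exp (-(-a i0 * y)) := by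
              rw [← Real.exp_add]
              congr 1
              ring
            rw [h3, div_eq_mul_inv]
            ring
          · simp only at h1 h2
            have h3 : a i = a i0 := by linarith
            have h4 : k i < k i0 := by
              rcases h2.lt_or_eq with h4 | h4
              · exact h4
              · exact absurd (hinj i i0 h3 h4) hi
            have h5 : Tendsto (fun y : ℝ => (y⁻¹) ^ (k i0 - k i)) atTop (𝓝 ((0 : ℝ) ^ (k i0 - k i))) :=
              tendsto_inv_atTop_zero.pow _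
            rw [zero_pow (by omega)] at h5
            refine h5.congr' ?_
            filter_upwards [eventually_gt_atTop 0] with y hy
            have h6 : y ^ k i0 = y ^ (k i0 - k i) * y ^ k i := by
              rw [← pow_add]
              congr 1
              omega
            have h7 := Real.exp_pos (-a i0 * y)
            rw [h3, h6, inv_pow]
            field_simp
        have h3 := ((Complex.continuous_ofReal.tendsto 0).comp h2).const_mul (w i)
        rw [Complex.ofReal_zero, mul_zero] at h3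
        exact h3
  have hsum := tendsto_finsetSum _ lim
  rw [Finset.sum_ite_eq' univ i0, if_pos (Finset.mem_univ _)] at hsum
  have hne' : (atTop ⊓ 𝓟 S : Filter ℝ).NeBot := by
    rw [Filter.inf_principal_neBot_iff]
    intro U hU
    obtain ⟨B, hB⟩ := Filter.mem_atTop_sets.1 hU
    obtain ⟨y, hy, hBy⟩ := hS B
    exact ⟨y, hB y hBy, hy⟩
  have hsum' := hsum.mono_left (inf_le_left : atTop ⊓ 𝓟 S ≤ atTop)
  have h0 : (fun y : ℝ => ∑ i, w i * ((y ^ k i * Real.exp (-a i * y) *
      (y ^ k i0 * Real.exp (-a i0 * y))⁻¹ : ℝ) : ℂ)) =ᶠ[atTop ⊓ 𝓟 S] fun _ => 0 := by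
    have h1 : ∀ᶠ y in atTop ⊓ 𝓟 S, y ∈ S := Filter.mem_inf_of_right (Filter.mem_principal_self S)
    filter_upwards [h1] with y hy
    have h2 := congrArg (fun t => t * (((y ^ k i0 * Real.exp (-a i0 * y))⁻¹ : ℝ) : ℂ)) (h y hy)
    simp only [zero_mul] at h2
    rw [← h2, Finset.sum_mul]
    refine Finset.sum_congr rfl fun i _ => ?_
    push_cast
    ring
  exact hw0 (tendsto_nhds_unique (hsum'.congr' h0) tendsto_const_nhds)

/-- the coefficients of `ζ^(k)(s + a)` -/
noncomputable def gz (a : ℝ) (k : ℕ) (r : ℕ) : ℂ :=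
  if r = 0 then 0 else (((-Real.log r) ^ k * Real.exp (-a * Real.log r) : ℝ) : ℂ)

/-- the index type -/
abbrev JZ (M : ℕ) (A : Finset ℝ) (K : ℕ) : Type := Fin M × ({a // a ∈ A} × Fin K)

variable {M K : ℕ} {A : Finset ℝ}

/-- the multiplier -/
def mz (j : JZ M A K) : ℕ := (j.1 : ℕ) + 1

theorem pow_inj {m : ℕ} (hm : 0 < m) : Function.Injective fun r : ℕ => r ^ m :=
  Nat.pow_left_injective (by omega)

/-- the coefficients of `ζ^(k)(m s + a)` -/
noncomputable def Fz (j : JZ M A K) : ArithmeticFunction ℂ :=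
  ⟨Function.extend (fun r : ℕ => r ^ mz j) (gz j.2.1 j.2.2) 0, by
    have h1 := (pow_inj (m := mz j) (Nat.succ_pos _)).extend_apply (gz j.2.1 j.2.2) 0 0
    have h2 : (0 : ℕ) ^ mz j = 0 := zero_pow (show mz j ≠ 0 from Nat.succ_ne_zero _)
    rw [h2] at h1
    rw [h1, gz, if_pos rfl]⟩

theorem Fz_pow (j : JZ M A K) (r : ℕ) : Fz j (r ^ mz j) = gz j.2.1 j.2.2 r :=
  (pow_inj (m := mz j) (Nat.succ_pos _)).extend_apply (gz j.2.1 j.2.2) 0 r

theorem Fz_ne (j : JZ M A K) (q : ℕ) (h : Fz j q ≠ 0) : ∃ r, r ^ mz j = q := by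
  by_contra hcon
  exact h (Function.extend_apply' _ _ _ hcon)

theorem h1 (j : JZ M A K) (q : ℕ) (h : Fz j q ≠ 0) (p : ℕ) (_ : p.Prime) : mz j ∣ q.factorization p := by
  obtain ⟨r, rfl⟩ := Fz_ne j q h
  rw [Nat.factorization_pow, Finsupp.smul_apply]
  exact Dvd.intro _ rfl

theorem h2 (M' N : ℕ) (w : JZ M A K → ℂ)
    (h : ∀ p, p.Prime → N < p → ∑ j, (if mz j = M' then w j * Fz j (p ^ M') else 0) = 0) :
    ∀ j, mz j = M' → w j = 0 := by
  classical
  rintro ⟨i0, b0⟩ hj0
  have key := expind (I := {a // a ∈ A} × Fin K) (fun b => (b.1 : ℝ)) (fun b => (b.2 : ℕ))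
    (fun i j h1 h2 => Prod.ext (Subtype.ext h1) (Fin.ext h2))
    {y | ∃ p : ℕ, p.Prime ∧ N < p ∧ y = Real.log p} (fun B => by
      obtain ⟨p, hp1, hp2⟩ := Nat.exists_infinite_primes (max (N + 1) ⌈Real.exp B⌉₊)
      refine ⟨Real.log p, ⟨p, hp2, lt_of_lt_of_le (Nat.lt_succ_self N) ((le_max_left _ _).trans hp1), rfl⟩, ?_⟩
      rw [Real.le_log_iff_exp_le (by exact_mod_cast hp2.pos)]
      exact (Nat.le_ceil _).trans (by exact_mod_cast (le_max_right _ _).trans hp1))
    (fun b => w (i0, b) * (-1) ^ (b.2 : ℕ)) (by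
      rintro y ⟨p, hp, hpN, rfl⟩
      have e := h p hp hpN
      rw [Fintype.sum_prod_type, Finset.sum_eq_single_of_mem i0 (Finset.mem_univ _) (fun i _ hi => by
        refine Finset.sum_eq_zero fun b _ => if_neg fun h' => hi (Fin.ext ?_)
        simp only [mz] at h' hj0
        omega)] at e
      refine Eq.trans (Finset.sum_congr rfl fun b _ => ?_) e
      have hm : mz (M := M) (A := A) (K := K) (i0, b) = M' := hj0
      rw [if_pos hm]
      have h3 := Fz_pow (M := M) (A := A) (K := K) (i0, b) p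
      rw [hm] at h3
      rw [h3, gz, if_neg hp.ne_zero]
      push_cast
      rw [neg_pow (Complex.log _ : ℂ)]
      ring)
  have h3 := congrFun key b0
  refine (mul_eq_zero.1 h3).resolve_right ?_
  exact pow_ne_zero _ (by norm_num)

end Pool.Agent.N534.DI
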