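import Mathlib
import Pool.Agent.N534.DI.Zet

/-!
# The Dirichlet series of `ζ^(k)(m z + a)`
-/

set_option autoImplicit false

open Finset MvPolynomial Filter Topology

namespace Pool.Agent.N534.DI

variable {M K : ℕ} {A : Finset ℝ}

theorem logPow (f : ℕ → ℂ) (k n : ℕ) : (LSeries.logMul^[k] f) n = Complex.log n ^ k * f n := by
  induction k with
  | zero => simp
  | succ k ih =>
    rw [Function.iterate_succ', Function.comp_apply, LSeries.logMul, ih, pow_succ]
    ring

theorem hasSum_one (k : ℕ) {s : ℂ} (hs : 1 < s.re) :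
    HasSum (fun r => (-1) ^ k * LSeries.term (LSeries.logMul^[k] 1) s r) (iteratedDeriv k riemannZeta s) := by
  have h1 : LSeries.abscissaOfAbsConv (1 : ℕ → ℂ) < s.re := by
    rw [LSeries.abscissaOfAbsConv_one]
    exact_mod_cast hs
  have h2 : iteratedDeriv k riemannZeta s = iteratedDeriv k (LSeries 1) s := by
    refine Filter.EventuallyEq.iteratedDeriv_eq k ?_
    filter_upwards [(isOpen_lt continuous_const Complex.continuous_re).mem_nhds hs] with w hw
    exact (LSeries_one_eq_riemannZeta hw).symm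
  rw [h2, LSeries_iteratedDeriv k h1]
  have h3 : LSeriesSummable (LSeries.logMul^[k] 1) s :=
    LSeriesSummable_of_abscissaOfAbsConv_lt_re (by rw [LSeries.absicssaOfAbsConv_logPowMul]; exact h1)
  exact h3.LSeriesHasSum.mul_left _

theorem hasSum_Fz (j : JZ M A K) {s : ℂ} (hs : 1 < ((mz j : ℂ) * s + ((j.2.1 : ℝ) : ℂ)).re) :
    LSeriesHasSum (fun n => Fz j n) s (iteratedDeriv j.2.2 riemannZeta ((mz j : ℂ) * s + ((j.2.1 : ℝ) : ℂ))) := by
  have hm : mz j ≠ 0 := Nat.succ_ne_zero _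
  have h2 := (hasSum_extend_zero (pow_inj (m := mz j) (Nat.pos_of_ne_zero hm))).2 (hasSum_one j.2.2 hs)
  have e : Function.extend (fun r : ℕ => r ^ mz j) (fun r => (-1 : ℂ) ^ (j.2.2 : ℕ) *
      LSeries.term (LSeries.logMul^[j.2.2] 1) ((mz j : ℂ) * s + ((j.2.1 : ℝ) : ℂ)) r) 0 =
      LSeries.term (fun n => Fz j n) s := by
    funext q
    by_cases h : ∃ r, r ^ mz j = q
    · obtain ⟨r, rfl⟩ := h
      have e1 := (pow_inj (m := mz j) (Nat.pos_of_ne_zero hm)).extend_apply (fun r => (-1 : ℂ) ^ (j.2.2 : ℕ) *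
        LSeries.term (LSeries.logMul^[j.2.2] 1) ((mz j : ℂ) * s + ((j.2.1 : ℝ) : ℂ)) r) 0 r
      refine e1.trans ?_
      by_cases hr : r = 0
      · subst hr
        rw [zero_pow hm]
        simp
      · have hrm : r ^ mz j ≠ 0 := pow_ne_zero _ hr
        have hrc : (r : ℂ) ≠ 0 := by exact_mod_cast hr
        have hrmc : ((r ^ mz j : ℕ) : ℂ) ≠ 0 := by exact_mod_cast hrm
        rw [LSeries.term_of_ne_zero hr, LSeries.term_of_ne_zero hrm, Fz_pow, gz, if_neg hr, logPow, Pi.one_apply, mul_one,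
          Complex.cpow_def_of_ne_zero hrc, Complex.cpow_def_of_ne_zero hrmc, ← Complex.natCast_log, ← Complex.natCast_log]
        have e2 : Real.log ((r ^ mz j : ℕ) : ℝ) = mz j * Real.log r := by
          rw [Nat.cast_pow, Real.log_pow]
        rw [e2]
        push_cast
        rw [neg_pow (Complex.log (r : ℂ))]
        have e3 : Complex.exp (-((j.2.1 : ℝ) : ℂ) * Complex.log (r : ℂ)) =
            Complex.exp ((mz j : ℂ) * Complex.log (r : ℂ) * s) / Complex.exp (Complex.log (r : ℂ) * ((mz j : ℂ) * s + ((j.2.1 : ℝ) : ℂ))) := by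
          rw [← Complex.exp_sub]
          congr 1
          ring
        have e4 := Complex.exp_ne_zero ((mz j : ℂ) * Complex.log (r : ℂ) * s)
        have e5 := Complex.exp_ne_zero (Complex.log (r : ℂ) * ((mz j : ℂ) * s + ((j.2.1 : ℝ) : ℂ)))
        rw [e3]
        field_simp
    · rw [Function.extend_apply' _ _ _ h]
      have h3 : Fz j q = 0 := by
        by_contra hne
        exact h (Fz_ne j q hne)
      rcases eq_or_ne q 0 with rfl | hq
      · simp
      · rw [LSeries.term_of_ne_zero hq, h3, zero_div]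
        rfl
  rw [e] at h2
  exact h2

/-- **the functions `ζ^(k)(m z + a)` are algebraically independent over `ℂ(z)`** -/
theorem aindepZ (X0 : ℝ) (P : MvPolynomial (Option (JZ M A K)) ℂ)
    (hP : ∀ x : ℝ, X0 < x → eval (fun o : Option (JZ M A K) => o.elim (x : ℂ) fun j =>
      iteratedDeriv j.2.2 riemannZeta ((mz j : ℂ) * x + ((j.2.1 : ℝ) : ℂ))) P = 0) : P = 0 := by
  obtain ⟨B, hB⟩ : ∃ B : ℝ, ∀ a ∈ A, 1 - a ≤ B := by
    obtain ⟨B, hB⟩ := (A.image fun a => 1 - a).exists_le
    exact ⟨B, fun a ha => hB _ (Finset.mem_image_of_mem _ ha)⟩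
  set X1 : ℝ := max X0 (max B 0) with hX1
  have hre : ∀ j : JZ M A K, ∀ x : ℝ, X1 < x → 1 < ((mz j : ℂ) * x + ((j.2.1 : ℝ) : ℂ)).re := by
    intro j x hx
    have e1 : ((mz j : ℂ) * x + ((j.2.1 : ℝ) : ℂ)).re = mz j * x + j.2.1 := by
      rw [← Complex.ofReal_natCast, ← Complex.ofReal_mul, ← Complex.ofReal_add, Complex.ofReal_re]
    have e2 : (1 : ℝ) ≤ mz j := by exact_mod_cast (Nat.succ_pos _ : 0 < mz j)
    have e3 : 0 < x := lt_of_le_of_lt ((le_max_right _ _).trans (le_max_right _ _)) hx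
    have e4 : B < x := lt_of_le_of_lt ((le_max_left _ _).trans (le_max_right _ _)) hx
    have e5 := hB _ j.2.1.2
    have e6 : x ≤ mz j * x := le_mul_of_one_le_left e3.le e2
    rw [e1]
    linarith
  refine aindepR X1 (Fz (M := M) (A := A) (K := K)) (fun P hP => inj mz (fun j => Nat.succ_pos _) Fz h1 h2 P hP)
    (fun j x hx => (hasSum_Fz j (hre j x hx)).LSeriesSummable) P (fun x hx => ?_)
  rw [← hP x (lt_of_le_of_lt (le_max_left _ _) hx)]
  congr 1
  congr 1
  funext o
  cases o with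
  | none => rfl
  | some j => exact (hasSum_Fz j (hre j x hx)).LSeries_eq

end Pool.Agent.N534.DI
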