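import Mathlib
import Pool.Agent.N534.DI.Ring2
import Pool.Agent.N534.DI.ZetL

/-!
# Dirichlet series with other coefficients
-/

set_option autoImplicit false

open Finset MvPolynomial Filter Topology

namespace Pool.Agent.N534.DI

variable {I : Type} {M K : ℕ} {A : Finset ℝ}

/-- the index type -/
abbrev JP (I : Type) (M : ℕ) (A : Finset ℝ) (K : ℕ) : Type := I × JZ M A K

/-- the coefficients -/
noncomputable def Fp (φ : I → ℕ → ℂ) (j : JP I M A K) : ArithmeticFunction ℂ :=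
  ⟨Function.extend (fun r : ℕ => r ^ mz j.2) (fun r => φ j.1 r * gz j.2.2.1 j.2.2.2 r) 0, by
    have h1 := (pow_inj (m := mz j.2) (Nat.succ_pos _)).extend_apply (fun r => φ j.1 r * gz j.2.2.1 j.2.2.2 r) 0 0
    have h2 : (0 : ℕ) ^ mz j.2 = 0 := zero_pow (show mz j.2 ≠ 0 from Nat.succ_ne_zero _)
    rw [h2] at h1
    rw [h1, gz, if_pos rfl, mul_zero]⟩

theorem Fp_pow (φ : I → ℕ → ℂ) (j : JP I M A K) (r : ℕ) :
    Fp φ j (r ^ mz j.2) = φ j.1 r * gz j.2.2.1 j.2.2.2 r :=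
  (pow_inj (m := mz j.2) (Nat.succ_pos _)).extend_apply (fun r => φ j.1 r * gz j.2.2.1 j.2.2.2 r) 0 r

theorem Fp_ne (φ : I → ℕ → ℂ) (j : JP I M A K) (q : ℕ) (h : Fp φ j q ≠ 0) : ∃ r, r ^ mz j.2 = q := by
  by_contra hcon
  exact h (Function.extend_apply' (f := fun r : ℕ => r ^ mz j.2) (fun r => φ j.1 r * gz j.2.2.1 j.2.2.2 r) 0 q hcon)

theorem h1p (φ : I → ℕ → ℂ) (j : JP I M A K) (q : ℕ) (h : Fp φ j q ≠ 0) (p : ℕ) (_ : p.Prime) :
    mz j.2 ∣ q.factorization p := by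
  obtain ⟨r, rfl⟩ := Fp_ne φ j q h
  rw [Nat.factorization_pow, Finsupp.smul_apply]
  exact Dvd.intro _ rfl

/-- separation of the coefficients at the primes -/
def SepP [Fintype I] (φ : I → ℕ → ℂ) (A : Finset ℝ) (K : ℕ) : Prop :=
  ∀ (N : ℕ) (w : I → ({a // a ∈ A} × Fin K) → ℂ),
    (∀ p : ℕ, p.Prime → N < p → ∑ i, ∑ b, w i b * (φ i p * gz b.1 b.2 p) = 0) → ∀ i b, w i b = 0

theorem h2p [Fintype I] (φ : I → ℕ → ℂ) (hφ : SepP φ A K) (M' N : ℕ) (w : JP I M A K → ℂ)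
    (h : ∀ p, p.Prime → N < p → ∑ j, (if mz j.2 = M' then w j * Fp φ j (p ^ M') else 0) = 0) :
    ∀ j, mz j.2 = M' → w j = 0 := by
  classical
  rintro ⟨i1, i0, b0⟩ hj0
  refine hφ N (fun i b => w (i, (i0, b))) (fun p hp hpN => ?_) i1 b0
  have e := h p hp hpN
  rw [Fintype.sum_prod_type] at e
  refine Eq.trans (Finset.sum_congr rfl fun i _ => ?_) e
  have e2 : ∑ y : JZ M A K, (if mz y = M' then w (i, y) * Fp φ (i, y) (p ^ M') else 0) =
      ∑ b, (if mz (M := M) (A := A) (K := K) (i0, b) = M' then w (i, (i0, b)) * Fp φ (i, (i0, b)) (p ^ M') else 0) := by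
    rw [Fintype.sum_prod_type, Finset.sum_eq_single_of_mem i0 (Finset.mem_univ _) (fun i' _ hi => by
      refine Finset.sum_eq_zero fun b _ => if_neg fun h' => hi (Fin.ext ?_)
      simp only [mz] at h' hj0
      omega)]
  refine Eq.trans ?_ e2.symm
  refine Finset.sum_congr rfl fun b _ => ?_
  have hm : mz (M := M) (A := A) (K := K) (i0, b) = M' := hj0
  rw [if_pos hm]
  have h3 := Fp_pow φ ((i, (i0, b)) : JP I M A K) p
  rw [hm] at h3
  rw [h3]

theorem hasSum_der (f : ℕ → ℂ) (L : ℂ → ℂ) (hf : LSeries.abscissaOfAbsConv f ≤ 1) (hL : ∀ s : ℂ, 1 < s.re → L s = LSeries f s)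
    (k : ℕ) {s : ℂ} (hs : 1 < s.re) :
    HasSum (fun r => (-1) ^ k * LSeries.term (LSeries.logMul^[k] f) s r) (iteratedDeriv k L s) := by
  have h1 : LSeries.abscissaOfAbsConv f < s.re := lt_of_le_of_lt hf (by exact_mod_cast hs)
  have h2 : iteratedDeriv k L s = iteratedDeriv k (LSeries f) s := by
    refine Filter.EventuallyEq.iteratedDeriv_eq k ?_
    filter_upwards [(isOpen_lt continuous_const Complex.continuous_re).mem_nhds hs] with w hw
    exact hL w hw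
  rw [h2, LSeries_iteratedDeriv k h1]
  have h3 : LSeriesSummable (LSeries.logMul^[k] f) s :=
    LSeriesSummable_of_abscissaOfAbsConv_lt_re (by rw [LSeries.absicssaOfAbsConv_logPowMul]; exact h1)
  exact h3.LSeriesHasSum.mul_left _

theorem hasSum_Fp (φ : I → ℕ → ℂ) (L : I → ℂ → ℂ) (hf : ∀ i, LSeries.abscissaOfAbsConv (φ i) ≤ 1)
    (hL : ∀ i, ∀ s : ℂ, 1 < s.re → L i s = LSeries (φ i) s) (j : JP I M A K) {s : ℂ}
    (hs : 1 < ((mz j.2 : ℂ) * s + ((j.2.2.1 : ℝ) : ℂ)).re) :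
    LSeriesHasSum (fun n => Fp φ j n) s (iteratedDeriv j.2.2.2 (L j.1) ((mz j.2 : ℂ) * s + ((j.2.2.1 : ℝ) : ℂ))) := by
  have hm : mz j.2 ≠ 0 := Nat.succ_ne_zero _
  have h2 := (hasSum_extend_zero (pow_inj (m := mz j.2) (Nat.pos_of_ne_zero hm))).2
    (hasSum_der (φ j.1) (L j.1) (hf j.1) (hL j.1) j.2.2.2 hs)
  have e : Function.extend (fun r : ℕ => r ^ mz j.2) (fun r => (-1 : ℂ) ^ (j.2.2.2 : ℕ) *
      LSeries.term (LSeries.logMul^[j.2.2.2] (φ j.1)) ((mz j.2 : ℂ) * s + ((j.2.2.1 : ℝ) : ℂ)) r) 0 =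
      LSeries.term (fun n => Fp φ j n) s := by
    funext q
    by_cases h : ∃ r, r ^ mz j.2 = q
    · obtain ⟨r, rfl⟩ := h
      have e1 := (pow_inj (m := mz j.2) (Nat.pos_of_ne_zero hm)).extend_apply (fun r => (-1 : ℂ) ^ (j.2.2.2 : ℕ) *
        LSeries.term (LSeries.logMul^[j.2.2.2] (φ j.1)) ((mz j.2 : ℂ) * s + ((j.2.2.1 : ℝ) : ℂ)) r) 0 r
      refine e1.trans ?_
      by_cases hr : r = 0
      · subst hr
        rw [zero_pow hm]
        simp
      · have hrm : r ^ mz j.2 ≠ 0 := pow_ne_zero _ hr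
        have hrc : (r : ℂ) ≠ 0 := by exact_mod_cast hr
        have hrmc : ((r ^ mz j.2 : ℕ) : ℂ) ≠ 0 := by exact_mod_cast hrm
        rw [LSeries.term_of_ne_zero hr, LSeries.term_of_ne_zero hrm, Fp_pow, gz, if_neg hr, logPow,
          Complex.cpow_def_of_ne_zero hrc, Complex.cpow_def_of_ne_zero hrmc, ← Complex.natCast_log, ← Complex.natCast_log]
        have e2 : Real.log ((r ^ mz j.2 : ℕ) : ℝ) = mz j.2 * Real.log r := by
          rw [Nat.cast_pow, Real.log_pow]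
        rw [e2]
        push_cast
        rw [neg_pow (Complex.log (r : ℂ))]
        have e3 : Complex.exp (-((j.2.2.1 : ℝ) : ℂ) * Complex.log (r : ℂ)) =
            Complex.exp ((mz j.2 : ℂ) * Complex.log (r : ℂ) * s) /
              Complex.exp (Complex.log (r : ℂ) * ((mz j.2 : ℂ) * s + ((j.2.2.1 : ℝ) : ℂ))) := by
          rw [← Complex.exp_sub]
          congr 1
          ring
        have e4 := Complex.exp_ne_zero ((mz j.2 : ℂ) * Complex.log (r : ℂ) * s)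
        have e5 := Complex.exp_ne_zero (Complex.log (r : ℂ) * ((mz j.2 : ℂ) * s + ((j.2.2.1 : ℝ) : ℂ)))
        rw [e3]
        field_simp
    · rw [Function.extend_apply' _ _ _ h]
      have h3 : Fp φ j q = 0 := by
        by_contra hne
        exact h (Fp_ne φ j q hne)
      rcases eq_or_ne q 0 with rfl | hq
      · simp
      · rw [LSeries.term_of_ne_zero hq, h3, zero_div]
        rfl
  rw [e] at h2
  exact h2

theorem hasSum_dl {q : ℕ} (hq : q ≠ 0) (s : ℂ) : LSeriesHasSum (fun n => dl q n) s ((q : ℂ) ^ (-s)) := by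
  have h2 : HasSum (LSeries.term (fun n => dl q n) s) (LSeries.term (fun n => dl q n) s q) := by
    refine hasSum_single q fun n hn => ?_
    rcases eq_or_ne n 0 with rfl | h0
    · simp
    · rw [LSeries.term_of_ne_zero h0, dl_apply hq, if_neg hn, zero_div]
  rw [LSeries.term_of_ne_zero hq, dl_apply hq, if_pos rfl, one_div, ← Complex.cpow_neg] at h2
  exact h2

/-- **algebraic independence over `ℂ(z)`** -/
theorem aindepP [Fintype I] (B : Finset ℕ) (hB : ∀ q ∈ B, q.Prime) (φ : I → ℕ → ℂ) (hφ : SepP φ A K) (L : I → ℂ → ℂ)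
    (hf : ∀ i, LSeries.abscissaOfAbsConv (φ i) ≤ 1) (hL : ∀ i, ∀ s : ℂ, 1 < s.re → L i s = LSeries (φ i) s) (X0 : ℝ)
    (P : MvPolynomial (Option ({q // q ∈ B} ⊕ JP I M A K)) ℂ)
    (hP : ∀ x : ℝ, X0 < x → eval (fun o : Option ({q // q ∈ B} ⊕ JP I M A K) => o.elim (x : ℂ)
      (Sum.elim (fun q => ((q : ℕ) : ℂ) ^ (-(x : ℂ)))
        fun j => iteratedDeriv j.2.2.2 (L j.1) ((mz j.2 : ℂ) * x + ((j.2.2.1 : ℝ) : ℂ)))) P = 0) : P = 0 := by
  obtain ⟨R, hR⟩ : ∃ R : ℝ, ∀ a ∈ A, 1 - a ≤ R := by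
    obtain ⟨R, hR⟩ := (A.image fun a => 1 - a).exists_le
    exact ⟨R, fun a ha => hR _ (Finset.mem_image_of_mem _ ha)⟩
  set X1 : ℝ := max X0 (max R 0) with hX1
  have hre : ∀ j : JZ M A K, ∀ x : ℝ, X1 < x → 1 < ((mz j : ℂ) * x + ((j.2.1 : ℝ) : ℂ)).re := by
    intro j x hx
    have e1 : ((mz j : ℂ) * x + ((j.2.1 : ℝ) : ℂ)).re = mz j * x + j.2.1 := by
      rw [← Complex.ofReal_natCast, ← Complex.ofReal_mul, ← Complex.ofReal_add, Complex.ofReal_re]
    have e2 : (1 : ℝ) ≤ mz j := by exact_mod_cast (Nat.succ_pos _ : 0 < mz j)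
    have e3 : 0 < x := lt_of_le_of_lt ((le_max_right _ _).trans (le_max_right _ _)) hx
    have e4 : R < x := lt_of_le_of_lt ((le_max_left _ _).trans (le_max_right _ _)) hx
    have e5 := hR _ j.2.1.2
    have e6 : x ≤ mz j * x := le_mul_of_one_le_left e3.le e2
    rw [e1]
    linarith
  refine aindepR X1 (FB B (Fp (M := M) (A := A) (K := K) φ))
    (fun P hP => inj' B hB (fun j => mz j.2) (fun j => Nat.succ_pos _) (Fp φ) (h1p φ) (h2p φ hφ) P hP)
    (fun j x hx => ?_) P (fun x hx => ?_)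
  · rcases j with q | j
    · exact (hasSum_dl (hB _ q.2).ne_zero x).LSeriesSummable
    · exact (hasSum_Fp φ L hf hL j (hre j.2 x hx)).LSeriesSummable
  · rw [← hP x (lt_of_le_of_lt (le_max_left _ _) hx)]
    congr 1
    congr 1
    funext o
    rcases o with _ | q | j
    · rfl
    · exact (hasSum_dl (hB _ q.2).ne_zero x).LSeries_eq
    · exact (hasSum_Fp φ L hf hL j (hre j.2 x hx)).LSeries_eq

end Pool.Agent.N534.DI
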