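import Mathlib
import Pool.Agent.N534.DI.Per

/-!
# Dirichlet series with other coefficients and abscissas
-/

set_option autoImplicit false

open Finset MvPolynomial Filter Topology

namespace Pool.Agent.N534.DI

variable {I : Type} {M K : ℕ} {A : Finset ℝ}

theorem hasSum_der' (σ : ℝ) (f : ℕ → ℂ) (L : ℂ → ℂ) (hf : LSeries.abscissaOfAbsConv f ≤ σ) (hL : ∀ s : ℂ, σ < s.re → L s = LSeries f s)
    (k : ℕ) {s : ℂ} (hs : σ < s.re) :
    HasSum (fun r => (-1) ^ k * LSeries.term (LSeries.logMul^[k] f) s r) (iteratedDeriv k L s) := by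
  have h1 : LSeries.abscissaOfAbsConv f < s.re := lt_of_le_of_lt hf (by exact_mod_cast hs)
  have h2 : iteratedDeriv k L s = iteratedDeriv k (LSeries f) s := by
    refine Filter.EventuallyEq.iteratedDeriv_eq k ?_
    filter_upwards [(isOpen_lt continuous_const Complex.continuous_re).mem_nhds hs] with w hw
    exact hL w hw
  rw [h2, LSeries_iteratedDeriv k h1]
  have h3 : LSeriesSummable (LSeries.logMul^[k] f) s :=
    LSeriesSummable_of_abscissaOfAbsConv_lt_re (by rw [LSeries.absicssaOfAbsConv_logPowMul]; exact h1)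
  exact h3.LSeriesHasSum.mul_left _

theorem hasSum_Fp' (σ : ℝ) (φ : I → ℕ → ℂ) (L : I → ℂ → ℂ) (hf : ∀ i, LSeries.abscissaOfAbsConv (φ i) ≤ σ)
    (hL : ∀ i, ∀ s : ℂ, σ < s.re → L i s = LSeries (φ i) s) (j : JP I M A K) {s : ℂ}
    (hs : σ < ((mz j.2 : ℂ) * s + ((j.2.2.1 : ℝ) : ℂ)).re) :
    LSeriesHasSum (fun n => Fp φ j n) s (iteratedDeriv j.2.2.2 (L j.1) ((mz j.2 : ℂ) * s + ((j.2.2.1 : ℝ) : ℂ))) := by
  have hm : mz j.2 ≠ 0 := Nat.succ_ne_zero _
  have h2 := (hasSum_extend_zero (pow_inj (m := mz j.2) (Nat.pos_of_ne_zero hm))).2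
    (hasSum_der' σ (φ j.1) (L j.1) (hf j.1) (hL j.1) j.2.2.2 hs)
  have e : Function.extend (fun r : ℕ => r ^ mz j.2) (fun r => (-1 : ℂ) ^ (j.2.2.2 : ℕ) *
      LSeries.term (LSeries.logMul^[j.2.2.2] (φ j.1)) ((mz j.2 : ℂ) * s + ((j.2.2.1 : ℝ) : ℂ)) r) 0 =
      LSeries.term (fun n => Fp φ j n) s := by
    funext q
    by_cases h : ∃ r, r ^ mz j.2 = q
    · obtain ⟨r, rfl⟩ := h
      have e1 := (pow_inj (m := mz j.2) (Nat.pos_of_ne_zero hm)).extend_apply (fun r => (-1 : ℂ) ^ (j.2.2.2 : ℕ) *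
        LSeries.term (LSeries.logMul^[j.2.2.2] (φ j.1)) ((mz j.2 : ℂ) * s + ((j.2.2.1 : ℝ) : ℂ)) r) 0 r
      refine e1.trans ?_
      by_cases hr : r = 0
      · subst hr
        rw [zero_pow hm]
        simp
      · have hrm : r ^ mz j.2 ≠ 0 := pow_ne_zero _ hr
        have hrc : (r : ℂ) ≠ 0 := by exact_mod_cast hr
        have hrmc : ((r ^ mz j.2 : ℕ) : ℂ) ≠ 0 := by exact_mod_cast hrm
        rw [LSeries.term_of_ne_zero hr, LSeries.term_of_ne_zero hrm, Fp_pow, gz, if_neg hr, logPow,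
          Complex.cpow_def_of_ne_zero hrc, Complex.cpow_def_of_ne_zero hrmc, ← Complex.natCast_log, ← Complex.natCast_log]
        have e2 : Real.log ((r ^ mz j.2 : ℕ) : ℝ) = mz j.2 * Real.log r := by
          rw [Nat.cast_pow, Real.log_pow]
        rw [e2]
        push_cast
        rw [neg_pow (Complex.log (r : ℂ))]
        have e3 : Complex.exp (-((j.2.2.1 : ℝ) : ℂ) * Complex.log (r : ℂ)) =
            Complex.exp ((mz j.2 : ℂ) * Complex.log (r : ℂ) * s) /
              Complex.exp (Complex.log (r : ℂ) * ((mz j.2 : ℂ) * s + ((j.2.2.1 : ℝ) : ℂ))) := by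
          rw [← Complex.exp_sub]
          congr 1
          ring
        have e4 := Complex.exp_ne_zero ((mz j.2 : ℂ) * Complex.log (r : ℂ) * s)
        have e5 := Complex.exp_ne_zero (Complex.log (r : ℂ) * ((mz j.2 : ℂ) * s + ((j.2.2.1 : ℝ) : ℂ)))
        rw [e3]
        field_simp
    · rw [Function.extend_apply' _ _ _ h]
      have h3 : Fp φ j q = 0 := by
        by_contra hne
        exact h (Fp_ne φ j q hne)
      rcases eq_or_ne q 0 with rfl | hq
      · simp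
      · rw [LSeries.term_of_ne_zero hq, h3, zero_div]
        rfl
  rw [e] at h2
  exact h2

/-- **algebraic independence over `ℂ(z)`** -/
theorem aindepP' [Fintype I] (σ : ℝ) (B : Finset ℕ) (hB : ∀ q ∈ B, q.Prime) (φ : I → ℕ → ℂ) (hφ : SepP φ A K) (L : I → ℂ → ℂ)
    (hf : ∀ i, LSeries.abscissaOfAbsConv (φ i) ≤ σ) (hL : ∀ i, ∀ s : ℂ, σ < s.re → L i s = LSeries (φ i) s) (X0 : ℝ)
    (P : MvPolynomial (Option ({q // q ∈ B} ⊕ JP I M A K)) ℂ)
    (hP : ∀ x : ℝ, X0 < x → eval (fun o : Option ({q // q ∈ B} ⊕ JP I M A K) => o.elim (x : ℂ)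
      (Sum.elim (fun q => ((q : ℕ) : ℂ) ^ (-(x : ℂ)))
        fun j => iteratedDeriv j.2.2.2 (L j.1) ((mz j.2 : ℂ) * x + ((j.2.2.1 : ℝ) : ℂ)))) P = 0) : P = 0 := by
  obtain ⟨R, hR⟩ : ∃ R : ℝ, ∀ a ∈ A, σ - a ≤ R := by
    obtain ⟨R, hR⟩ := (A.image fun a => σ - a).exists_le
    exact ⟨R, fun a ha => hR _ (Finset.mem_image_of_mem _ ha)⟩
  set X1 : ℝ := max X0 (max R 0) with hX1
  have hre : ∀ j : JZ M A K, ∀ x : ℝ, X1 < x → σ < ((mz j : ℂ) * x + ((j.2.1 : ℝ) : ℂ)).re := by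
    intro j x hx
    have e1 : ((mz j : ℂ) * x + ((j.2.1 : ℝ) : ℂ)).re = mz j * x + j.2.1 := by
      rw [← Complex.ofReal_natCast, ← Complex.ofReal_mul, ← Complex.ofReal_add, Complex.ofReal_re]
    have e2 : (1 : ℝ) ≤ mz j := by exact_mod_cast (Nat.succ_pos _ : 0 < mz j)
    have e3 : 0 < x := lt_of_le_of_lt ((le_max_right _ _).trans (le_max_right _ _)) hx
    have e4 : R < x := lt_of_le_of_lt ((le_max_left _ _).trans (le_max_right _ _)) hx
    have e5 := hR _ j.2.1.2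
    have e6 : x ≤ mz j * x := le_mul_of_one_le_left e3.le e2
    rw [e1]
    linarith
  refine aindepR X1 (FB B (Fp (M := M) (A := A) (K := K) φ))
    (fun P hP => inj' B hB (fun j => mz j.2) (fun j => Nat.succ_pos _) (Fp φ) (h1p φ) (h2p φ hφ) P hP)
    (fun j x hx => ?_) P (fun x hx => ?_)
  · rcases j with q | j
    · exact (hasSum_dl (hB _ q.2).ne_zero x).LSeriesSummable
    · exact (hasSum_Fp' σ φ L hf hL j (hre j.2 x hx)).LSeriesSummable
  · rw [← hP x (lt_of_le_of_lt (le_max_left _ _) hx)]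
    congr 1
    congr 1
    funext o
    rcases o with _ | q | j
    · rfl
    · exact (hasSum_dl (hB _ q.2).ne_zero x).LSeries_eq
    · exact (hasSum_Fp' σ φ L hf hL j (hre j.2 x hx)).LSeries_eq


/-- coefficients which do not vanish at infinitely many primes -/
theorem sepP_single (f : ℕ → ℂ) (hf : ∀ N : ℕ, ∃ p, N < p ∧ p.Prime ∧ f p ≠ 0) : SepP (fun _ : Unit => f) A K := by
  classical
  intro N w h
  have h1 := expind (I := {a // a ∈ A} × Fin K) (fun b => (b.1 : ℝ)) (fun b => (b.2 : ℕ))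
    (fun i j h1 h2 => Prod.ext (Subtype.ext h1) (Fin.ext h2))
    {y | ∃ p : ℕ, p.Prime ∧ N < p ∧ f p ≠ 0 ∧ y = Real.log p} (fun R => by
      obtain ⟨p, hp1, hp2, hp3⟩ := hf (max N ⌈Real.exp R⌉₊)
      refine ⟨Real.log p, ⟨p, hp2, lt_of_le_of_lt (le_max_left _ _) hp1, hp3, rfl⟩, ?_⟩
      rw [Real.le_log_iff_exp_le (by exact_mod_cast hp2.pos)]
      exact (Nat.le_ceil _).trans (by exact_mod_cast ((le_max_right _ _).trans hp1.le)))
    (fun b => w () b * (-1) ^ (b.2 : ℕ)) (by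
      rintro y ⟨p, hp, hpN, hfp, rfl⟩
      have e := h p hp hpN
      rw [Fintype.sum_unique] at e
      refine mul_left_cancel₀ hfp ?_
      rw [mul_zero]
      refine Eq.trans ?_ e
      rw [Finset.mul_sum]
      refine Finset.sum_congr rfl fun b _ => ?_
      rw [gz, if_neg hp.ne_zero]
      push_cast
      rw [neg_pow (Complex.log _ : ℂ)]
      change _ = w () b * _
      ring)
  intro i b
  refine (mul_eq_zero.1 (congrFun h1 b)).resolve_right ?_
  exact pow_ne_zero _ (by norm_num)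

end Pool.Agent.N534.DI
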