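import Mathlib
import Pool.Agent.N534.DI.Per2

/-!
# Double zeta functions
-/

set_option autoImplicit false

open Finset MvPolynomial Filter Topology

namespace Pool.Agent.N534.DI

theorem ratio0 (a a0 : ℝ) (k k0 : ℕ) (h : a0 < a ∨ (a = a0 ∧ k < k0)) :
    Tendsto (fun y : ℝ => y ^ k * Real.exp (-a * y) * (y ^ k0 * Real.exp (-a0 * y))⁻¹) atTop (𝓝 0) := by
  rcases h with h1 | ⟨h3, h4⟩
  · refine (tendsto_rpow_mul_exp_neg_mul_atTop_nhds_zero ((k : ℝ) - k0) (a - a0) (by linarith)).congr' ?_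
    filter_upwards [eventually_gt_atTop 0] with y hy
    rw [Real.rpow_sub hy, Real.rpow_natCast, Real.rpow_natCast, mul_inv, ← Real.exp_neg]
    have h3 : Real.exp (-(a - a0) * y) = Real.exp (-a * y) * Real.exp (-(-a0 * y)) := by
      rw [← Real.exp_add]
      congr 1
      ring
    rw [h3, div_eq_mul_inv]
    ring
  · have h5 : Tendsto (fun y : ℝ => (y⁻¹) ^ (k0 - k)) atTop (𝓝 ((0 : ℝ) ^ (k0 - k))) :=
      tendsto_inv_atTop_zero.pow _
    rw [zero_pow (by omega)] at h5
    refine h5.congr' ?_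
    filter_upwards [eventually_gt_atTop 0] with y hy
    have h6 : y ^ k0 = y ^ (k0 - k) * y ^ k := by
      rw [← pow_add]
      congr 1
      omega
    have h7 := Real.exp_pos (-a0 * y)
    rw [h3, h6, inv_pow]
    field_simp

/-- coefficients of different orders of magnitude -/
theorem sepP_lead {I : Type} [Fintype I] {K : ℕ} (φ : I → ℕ → ℂ) (e : I → ℝ) (he : Function.Injective e) (c C : I → ℝ)
    (hc : ∀ i, 0 < c i) (hlow : ∀ i, ∀ m : ℕ, 1 ≤ m → c i * Real.exp (-e i * Real.log m) ≤ ‖φ i m‖)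
    (hup : ∀ i, ∀ m : ℕ, 1 ≤ m → ‖φ i m‖ ≤ C i * Real.exp (-e i * Real.log m)) : SepP φ {0} K := by
  classical
  intro N w h
  by_contra hne
  push Not at hne
  obtain ⟨i1, b1, hw1⟩ := hne
  obtain ⟨⟨i0, b0⟩, hi0, hmax⟩ := Finset.exists_max_image
    ((univ : Finset (I × ({a // a ∈ ({0} : Finset ℝ)} × Fin K))).filter fun x => w x.1 x.2 ≠ 0)
    (fun x => toLex (-e x.1, (x.2.2 : ℕ))) ⟨(i1, b1), by simp [hw1]⟩
  have hw0 : w i0 b0 ≠ 0 := (Finset.mem_filter.1 hi0).2
  have hgz : ∀ (b : {a // a ∈ ({0} : Finset ℝ)} × Fin K) (m : ℕ), 1 ≤ m → ‖gz b.1 b.2 m‖ = Real.log m ^ (b.2 : ℕ) := by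
    intro b m hm
    have hb : (b.1 : ℝ) = 0 := Finset.mem_singleton.1 b.1.2
    have hl : 0 ≤ Real.log m := Real.log_nonneg (by exact_mod_cast hm)
    rw [gz, if_neg (by omega), Complex.norm_real, hb, neg_zero, zero_mul, Real.exp_zero, mul_one, norm_pow, norm_neg,
      Real.norm_eq_abs, abs_of_nonneg hl]
  have hG0 : ∀ m : ℕ, 2 ≤ m → φ i0 m * gz b0.1 b0.2 m ≠ 0 := by
    intro m hm h0
    have h1 := congrArg norm h0
    rw [norm_mul, hgz b0 m (by omega), norm_zero] at h1
    have h2 := hlow i0 m (by omega)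
    have h3 : 0 < c i0 * Real.exp (-e i0 * Real.log m) := mul_pos (hc _) (Real.exp_pos _)
    have h4 : 0 < Real.log m := Real.log_pos (by exact_mod_cast (by omega : 1 < m))
    have h5 := mul_pos (h3.trans_le h2) (pow_pos h4 (b0.2 : ℕ))
    linarith
  have hlogm : Tendsto (fun m : ℕ => Real.log m) atTop atTop := Real.tendsto_log_atTop.comp tendsto_natCast_atTop_atTop
  have lim : ∀ x ∈ (univ : Finset (I × ({a // a ∈ ({0} : Finset ℝ)} × Fin K))),
      Tendsto (fun m : ℕ => w x.1 x.2 * (φ x.1 m * gz x.2.1 x.2.2 m) / (φ i0 m * gz b0.1 b0.2 m)) atTop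
        (𝓝 (if x = (i0, b0) then w i0 b0 else 0)) := by
    rintro ⟨i, b⟩ _
    by_cases hx : (i, b) = (i0, b0)
    · obtain ⟨rfl, rfl⟩ := Prod.mk.inj hx
      rw [if_pos rfl]
      refine (tendsto_const_nhds (x := w i b)).congr' ?_
      filter_upwards [eventually_ge_atTop 2] with m hm
      rw [mul_div_assoc, div_self (hG0 m hm), mul_one]
    · rw [if_neg hx]
      by_cases hw : w i b = 0
      · simp only [hw, zero_mul, zero_div]
        exact tendsto_const_nhds
      · have h1 := hmax (i, b) (by simp [hw])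
        rw [Prod.Lex.toLex_le_toLex] at h1
        simp only at h1
        have h2 : e i0 < e i ∨ (e i = e i0 ∧ (b.2 : ℕ) < b0.2) := by
          rcases h1 with h1 | ⟨h1, h2⟩
          · left
            linarith
          · right
            have h3 : e i = e i0 := by linarith
            refine ⟨h3, lt_of_le_of_ne h2 fun h4 => hx ?_⟩
            have h5 : b.1 = b0.1 := Subtype.ext ((Finset.mem_singleton.1 b.1.2).trans (Finset.mem_singleton.1 b0.1.2).symm)
            exact Prod.ext (he h3) (Prod.ext h5 (Fin.ext h4))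
        have h3 := ((ratio0 (e i) (e i0) (b.2 : ℕ) (b0.2 : ℕ) h2).comp hlogm).const_mul (‖w i b‖ * (C i / c i0))
        rw [mul_zero] at h3
        rw [tendsto_zero_iff_norm_tendsto_zero]
        refine squeeze_zero' (Filter.Eventually.of_forall fun _ => norm_nonneg _) ?_ h3
        filter_upwards [eventually_ge_atTop 2] with m hm
        simp only [Function.comp_apply]
        have hl : 0 < Real.log m := Real.log_pos (by exact_mod_cast (by omega : 1 < m))
        rw [norm_div, norm_mul, norm_mul, norm_mul, hgz b m (by omega), hgz b0 m (by omega)]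
        have e1 := hup i m (by omega)
        have e2 := hlow i0 m (by omega)
        have p1 : 0 < c i0 * Real.exp (-e i0 * Real.log m) := mul_pos (hc _) (Real.exp_pos _)
        have p2 : 0 < Real.log m ^ (b0.2 : ℕ) := pow_pos hl _
        have p3 : 0 < Real.log m ^ (b.2 : ℕ) := pow_pos hl _
        have p4 := Real.exp_pos (-e i0 * Real.log m)
        calc ‖w i b‖ * (‖φ i m‖ * Real.log m ^ (b.2 : ℕ)) / (‖φ i0 m‖ * Real.log m ^ (b0.2 : ℕ))
            ≤ ‖w i b‖ * ((C i * Real.exp (-e i * Real.log m)) * Real.log m ^ (b.2 : ℕ)) /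
              ((c i0 * Real.exp (-e i0 * Real.log m)) * Real.log m ^ (b0.2 : ℕ)) := by
              refine div_le_div₀ ?_ ?_ (mul_pos p1 p2) (mul_le_mul_of_nonneg_right e2 p2.le)
              · exact mul_nonneg (norm_nonneg _) (mul_nonneg ((norm_nonneg _).trans e1) p3.le)
              · exact mul_le_mul_of_nonneg_left (mul_le_mul_of_nonneg_right e1 p3.le) (norm_nonneg _)
          _ = ‖w i b‖ * (C i / c i0) * (Real.log m ^ (b.2 : ℕ) * Real.exp (-e i * Real.log m) *
              (Real.log m ^ (b0.2 : ℕ) * Real.exp (-e i0 * Real.log m))⁻¹) := by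
              have := (hc i0).ne'
              field_simp
  have hsum := tendsto_finsetSum _ lim
  rw [Finset.sum_ite_eq' univ (i0, b0), if_pos (Finset.mem_univ _)] at hsum
  have hne' : (atTop ⊓ 𝓟 {p : ℕ | p.Prime ∧ N < p} : Filter ℕ).NeBot := by
    rw [Filter.inf_principal_neBot_iff]
    intro U hU
    obtain ⟨B, hB⟩ := Filter.mem_atTop_sets.1 hU
    obtain ⟨p, hp1, hp2⟩ := Nat.exists_infinite_primes (max (N + 1) B)
    exact ⟨p, hB p ((le_max_right _ _).trans hp1), hp2, lt_of_lt_of_le (Nat.lt_succ_self N) ((le_max_left _ _).trans hp1)⟩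
  have hsum' := hsum.mono_left (inf_le_left : atTop ⊓ 𝓟 {p : ℕ | p.Prime ∧ N < p} ≤ atTop)
  have h0 : (fun m : ℕ => ∑ x : I × ({a // a ∈ ({0} : Finset ℝ)} × Fin K),
      w x.1 x.2 * (φ x.1 m * gz x.2.1 x.2.2 m) / (φ i0 m * gz b0.1 b0.2 m)) =ᶠ[atTop ⊓ 𝓟 {p : ℕ | p.Prime ∧ N < p}] fun _ => 0 := by
    have h1 : ∀ᶠ p in atTop ⊓ 𝓟 {p : ℕ | p.Prime ∧ N < p}, p ∈ {p : ℕ | p.Prime ∧ N < p} :=
      Filter.mem_inf_of_right (Filter.mem_principal_self _)
    filter_upwards [h1] with p hp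
    rw [← Finset.sum_div, Fintype.sum_prod_type, h p hp.1 hp.2, zero_div]
  exact hw0 (tendsto_nhds_unique (hsum'.congr' h0) tendsto_const_nhds)

end Pool.Agent.N534.DI
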