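import Mathlib
import Pool.Agent.N534.DI.Per

/-!
# Periodic coefficients
-/

set_option autoImplicit false

open Finset MvPolynomial Filter Topology

namespace Pool.Agent.N534.DI

variable {I : Type} [Fintype I] {K : ℕ} {A : Finset ℝ}

/-- periodic coefficients which are linearly independent on the units -/
theorem sepP_of_periodic (n : ℕ) (hn : 0 < n) (φ : I → ℕ → ℂ) (hper : ∀ i r s, r ≡ s [MOD n] → φ i r = φ i s)
    (hind : ∀ w : I → ℂ, (∀ c : ℕ, c.Coprime n → ∑ i, w i * φ i c = 0) → w = 0) : SepP φ A K := by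
  classical
  intro N w h
  have key : ∀ c : ℕ, c.Coprime n → ∀ b : {a // a ∈ A} × Fin K, ∑ i, w i b * φ i c = 0 := by
    intro c hc
    have h1 := expind (I := {a // a ∈ A} × Fin K) (fun b => (b.1 : ℝ)) (fun b => (b.2 : ℕ))
      (fun i j h1 h2 => Prod.ext (Subtype.ext h1) (Fin.ext h2))
      {y | ∃ p : ℕ, p.Prime ∧ N < p ∧ p ≡ c [MOD n] ∧ y = Real.log p} (fun R => by
        obtain ⟨p, hp1, hp2, hp3⟩ := Nat.forall_exists_prime_gt_and_modEq (max N ⌈Real.exp R⌉₊) hn.ne' hc
        refine ⟨Real.log p, ⟨p, hp2, lt_of_le_of_lt (le_max_left _ _) hp1, hp3, rfl⟩, ?_⟩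
        rw [Real.le_log_iff_exp_le (by exact_mod_cast hp2.pos)]
        exact (Nat.le_ceil _).trans (by exact_mod_cast ((le_max_right _ _).trans hp1.le)))
      (fun b => (∑ i, w i b * φ i c) * (-1) ^ (b.2 : ℕ)) (by
        rintro y ⟨p, hp, hpN, hpc, rfl⟩
        have e := h p hp hpN
        rw [Finset.sum_comm] at e
        refine Eq.trans (Finset.sum_congr rfl fun b _ => ?_) e
        rw [Finset.sum_mul, Finset.sum_mul]
        refine Finset.sum_congr rfl fun i _ => ?_
        rw [hper i p c hpc, gz, if_neg hp.ne_zero]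
        push_cast
        rw [neg_pow (Complex.log _ : ℂ)]
        ring)
    intro b
    refine (mul_eq_zero.1 (congrFun h1 b)).resolve_right ?_
    exact pow_ne_zero _ (by norm_num)
  intro i b
  exact congrFun (hind (fun i => w i b) fun c hc => key c hc b) i

/-- the coefficients of `Li_s(e^(π i / 3))` and `Li_s(e^(- π i / 3))` -/
noncomputable def side : Fin 2 → ℝ := ![1 / 6, -(1 / 6)]

/-- the coefficients -/
noncomputable def ph (i : Fin 2) (r : ℕ) : ℂ := Complex.exp (2 * Real.pi * Complex.I * side i * r)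

theorem ph_zero (r : ℕ) : ph 0 r = Complex.exp (2 * Real.pi * Complex.I / 6) ^ r := by
  rw [ph, ← Complex.exp_nat_mul]
  congr 1
  simp only [side, Matrix.cons_val_zero]
  push_cast
  ring

theorem ph_one (r : ℕ) : ph 1 r = (Complex.exp (2 * Real.pi * Complex.I / 6))⁻¹ ^ r := by
  rw [ph, ← Complex.exp_neg, ← Complex.exp_nat_mul]
  congr 1
  simp only [side, Matrix.cons_val_one, Matrix.cons_val_fin_one]
  push_cast
  ring

theorem sepP_ph : SepP ph A K := by
  have hz : IsPrimitiveRoot (Complex.exp (2 * Real.pi * Complex.I / 6)) 6 := by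
    have := Complex.isPrimitiveRoot_exp 6 (by norm_num)
    simpa using this
  set ω := Complex.exp (2 * Real.pi * Complex.I / 6) with hω
  have hω0 : ω ≠ 0 := Complex.exp_ne_zero _
  have hω6 : ω ^ 6 = 1 := hz.pow_eq_one
  have hinv : ω⁻¹ ^ 6 = 1 := by rw [inv_pow, hω6, inv_one]
  refine sepP_of_periodic 6 (by norm_num) ph (fun i r s hrs => ?_) (fun w hw => ?_)
  · have hmod : ∀ z : ℂ, z ^ 6 = 1 → z ^ r = z ^ s := by
      intro z h6
      rw [← Nat.mod_add_div r 6, ← Nat.mod_add_div s 6, pow_add, pow_add, pow_mul, pow_mul, h6, one_pow, one_pow, hrs]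
    fin_cases i
    · change ph 0 r = ph 0 s
      rw [ph_zero, ph_zero]
      exact hmod _ hω6
    · change ph 1 r = ph 1 s
      rw [ph_one, ph_one]
      exact hmod _ hinv
  · have e1 := hw 1 (by norm_num)
    have e5 := hw 5 (by norm_num)
    rw [Fin.sum_univ_two, ph_zero, ph_one] at e1 e5
    rw [← hω, pow_one, pow_one] at e1
    rw [← hω] at e5
    have f1 : ω * ω⁻¹ = 1 := mul_inv_cancel₀ hω0
    have h1 : w 0 * ω ^ 2 + w 1 = 0 := by
      linear_combination ω * e1 - w 1 * f1
    have f5 : ω⁻¹ ^ 5 = ω := by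
      have : ω⁻¹ ^ 5 = ω * ω⁻¹ ^ 6 := by
        rw [pow_succ (ω⁻¹) 5]
        field_simp
      rw [this, hinv, mul_one]
    rw [f5] at e5
    have h2 : w 0 * ω ^ 4 + w 1 = 0 := by
      refine mul_right_cancel₀ hω0 ?_
      rw [zero_mul]
      linear_combination e5
    have h3 : w 0 * (ω ^ 2 * (ω ^ 2 - 1)) = 0 := by linear_combination h2 - h1
    have h4 : ω ^ 2 - 1 ≠ 0 := by
      intro h0
      have := hz.pow_ne_one_of_pos_of_lt (l := 2) (by norm_num) (by norm_num)
      exact this (by linear_combination h0)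
    have hw0 : w 0 = 0 := (mul_eq_zero.1 h3).resolve_right (mul_ne_zero (pow_ne_zero _ hω0) h4)
    have hw1 : w 1 = 0 := by
      rw [hw0, zero_mul, zero_add] at h1
      exact h1
    funext i
    fin_cases i
    · exact hw0
    · exact hw1

theorem ph_abs (i : Fin 2) : LSeries.abscissaOfAbsConv (ph i) ≤ 1 := by
  refine LSeries.abscissaOfAbsConv_le_one_of_isBigO_one ?_
  refine Asymptotics.IsBigO.of_bound 1 (Filter.Eventually.of_forall fun r => ?_)
  rw [ph, norm_one, mul_one]
  have h1 : (2 * Real.pi * Complex.I * side i * r : ℂ) = ((2 * Real.pi * side i * r : ℝ) : ℂ) * Complex.I := by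
    push_cast
    ring
  rw [h1, Complex.norm_exp_ofReal_mul_I]

theorem ph_L (i : Fin 2) (s : ℂ) (hs : 1 < s.re) :
    HurwitzZeta.expZeta (side i : UnitAddCircle) s = LSeries (ph i) s :=
  (HurwitzZeta.LSeriesHasSum_exp (side i) hs).LSeries_eq.symm

end Pool.Agent.N534.DI
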