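import Mathlib
import Pool.Agent.N534.DI.Per2

/-!
# Twists by Dirichlet characters
-/

set_option autoImplicit false

open Finset MvPolynomial Filter Topology

namespace Pool.Agent.N534.DI

variable {K : ℕ} {A : Finset ℝ}

/-- twists of a Dirichlet series by different characters -/
theorem sepP_twist {I : Type} [Fintype I] (n : ℕ) (hn : 0 < n) (f : ℕ → ℂ) (ψ : I → DirichletCharacter ℂ n)
    (hψ : Function.Injective ψ)
    (hf : ∀ c : ℕ, c.Coprime n → ∀ N : ℕ, ∃ p, N < p ∧ p.Prime ∧ p ≡ c [MOD n] ∧ f p ≠ 0) :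
    SepP (fun i m => f m * ψ i m) A K := by
  classical
  have hnz : NeZero n := ⟨hn.ne'⟩
  intro N w h
  have key : ∀ c : ℕ, c.Coprime n → ∀ b : {a // a ∈ A} × Fin K, ∑ i, w i b * ψ i c = 0 := by
    intro c hc
    have h1 := expind (I := {a // a ∈ A} × Fin K) (fun b => (b.1 : ℝ)) (fun b => (b.2 : ℕ))
      (fun i j h1 h2 => Prod.ext (Subtype.ext h1) (Fin.ext h2))
      {y | ∃ p : ℕ, p.Prime ∧ N < p ∧ p ≡ c [MOD n] ∧ f p ≠ 0 ∧ y = Real.log p} (fun R => by
        obtain ⟨p, hp1, hp2, hp3, hp4⟩ := hf c hc (max N ⌈Real.exp R⌉₊)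
        refine ⟨Real.log p, ⟨p, hp2, lt_of_le_of_lt (le_max_left _ _) hp1, hp3, hp4, rfl⟩, ?_⟩
        rw [Real.le_log_iff_exp_le (by exact_mod_cast hp2.pos)]
        exact (Nat.le_ceil _).trans (by exact_mod_cast ((le_max_right _ _).trans hp1.le)))
      (fun b => (∑ i, w i b * ψ i c) * (-1) ^ (b.2 : ℕ)) (by
        rintro y ⟨p, hp, hpN, hpc, hfp, rfl⟩
        have e := h p hp hpN
        rw [Finset.sum_comm] at e
        refine mul_left_cancel₀ hfp ?_
        rw [mul_zero]
        refine Eq.trans ?_ e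
        rw [Finset.mul_sum]
        refine Finset.sum_congr rfl fun b _ => ?_
        rw [Finset.sum_mul, Finset.sum_mul, Finset.mul_sum]
        refine Finset.sum_congr rfl fun i _ => ?_
        have hc' : ((p : ℕ) : ZMod n) = (c : ZMod n) := (ZMod.natCast_eq_natCast_iff p c n).2 hpc
        have hps : ψ i (p : ZMod n) = ψ i (c : ZMod n) := by rw [hc']
        rw [gz, if_neg hp.ne_zero]
        simp only [hps]
        push_cast
        rw [neg_pow (Complex.log _ : ℂ)]
        ring)
    intro b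
    refine (mul_eq_zero.1 (congrFun h1 b)).resolve_right ?_
    exact pow_ne_zero _ (by norm_num)
  intro i b
  have hind := (linearIndependent_monoidHom (ZMod n)ˣ ℂ).comp (fun i => (MulChar.toMonoidHom (ψ i)).comp (Units.coeHom (ZMod n)))
    (fun i j hij => hψ (by
      ext u
      exact DFunLike.congr_fun hij u))
  rw [Fintype.linearIndependent_iff] at hind
  refine hind (fun i => w i b) ?_ i
  funext u
  rw [Finset.sum_apply]
  have hu : ((u : ZMod n).val).Coprime n := ZMod.val_coe_unit_coprime u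
  have h2 := key _ hu b
  rw [ZMod.natCast_zmod_val] at h2
  exact h2

end Pool.Agent.N534.DI
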